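import Pool.Agent.H84.WI.Pi

/-!
# THEOREM W, module Big (lower bound for the mean square of a row; a row times a power of x which is integral is integral)

`row_big`: `N(π^K A)` is a nonzero integer, `|N(π)| = p^p` (`norm_pi`), so `∏ |e(A)| ≥ p^(-pK)`; AM-GM for the `p(p-1)` numbers `|e(A)|^2`
(`Real.inner_le_nnorm_mul_nnorm` no; `Real.geom_mean_le_arith_mean` or exp/log convexity): mean `≥ p^(-2K/(p-1))`.
`pow_near_one`: `(log p)/(p-1) → 0`. `A_integral`: `p = π w` (`p_eq`), so `p^K A` is integral; `b^j A^p = (A x^j)^p` is integral;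
`p^(Kp)` and `b^j` are coprime, so `A^p` is integral, so `A` is (`IsIntegral.of_pow`).
-/

set_option autoImplicit false

namespace Pool.Agent.H84.WI

open Finset

variable {p b : ℕ} [Fact p.Prime] {F : Type} [Field F] [NumberField F]

/-- `∑ log |e(A)| ≥ -p K log p` -/
private theorem sum_log_ge (D : Dat p b F) (A : F) (hA0 : A ≠ 0) (K : ℕ)
    (hK : IsIntegral ℤ (D.pi ^ K * A)) :
    -((p : ℝ) * K * Real.log p) ≤ ∑ st : (ZMod p)ˣ × ZMod p, Real.log ‖D.e st A‖ := by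
  have hp0 : (0 : ℝ) < p := by exact_mod_cast (Fact.out : p.Prime).pos
  have hne : D.pi ^ K * A ≠ 0 := mul_ne_zero (pow_ne_zero _ D.pi_ne_zero) hA0
  have hn0 : Algebra.norm ℚ A ≠ 0 := Algebra.norm_ne_zero_iff.2 hA0
  have h1 : IsIntegral ℤ (Algebra.norm ℚ (D.pi ^ K * A)) := Algebra.isIntegral_norm ℚ hK
  obtain ⟨n, hn⟩ := IsIntegrallyClosed.isIntegral_iff.1 h1
  have hn1 : Algebra.norm ℚ (D.pi ^ K * A) ≠ 0 := Algebra.norm_ne_zero_iff.2 hne
  have h2 : (1 : ℚ) ≤ |Algebra.norm ℚ (D.pi ^ K * A)| := by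
    rw [← hn] at hn1 ⊢
    have h3 : n ≠ 0 := by
      rintro rfl
      exact hn1 (map_zero _)
    have h4 := Int.one_le_abs h3
    have h5 : (algebraMap ℤ ℚ) n = (n : ℚ) := rfl
    rw [h5]
    exact_mod_cast h4
  rw [map_mul, map_pow, abs_mul, abs_pow, norm_pi D, ← pow_mul] at h2
  have h3 : (1 : ℝ) ≤ (p : ℝ) ^ (p * K) * |((Algebra.norm ℚ A : ℚ) : ℝ)| := by exact_mod_cast h2
  have h4 : |((Algebra.norm ℚ A : ℚ) : ℝ)| = ∏ st : (ZMod p)ˣ × ZMod p, ‖D.e st A‖ := by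
    rw [← norm_prod, ← D.norm_eq A]
    rw [show ((Algebra.norm ℚ A : ℚ) : ℂ) = (((Algebra.norm ℚ A : ℚ) : ℝ) : ℂ) by norm_cast,
      Complex.norm_real, Real.norm_eq_abs]
  have h5 : ∀ st : (ZMod p)ˣ × ZMod p, ‖D.e st A‖ ≠ 0 := by
    intro st h
    exact hA0 ((map_eq_zero _).1 (norm_eq_zero.1 h))
  have h6 := Real.log_nonneg h3
  rw [Real.log_mul (by positivity) (by rw [h4]; exact Finset.prod_ne_zero_iff.2 fun st _ => h5 st),
    Real.log_pow, h4, Real.log_prod fun st _ => h5 st] at h6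
  push_cast at h6
  linarith

theorem row_big (D : Dat p b F) (A : F) (hA0 : A ≠ 0) (K : ℕ) (hK : IsIntegral ℤ (D.pi ^ K * A)) :
    ((p : ℝ) * (p - 1)) * Real.exp (-(2 * K * Real.log p / (p - 1))) ≤
      ∑ st : (ZMod p)ˣ × ZMod p, ‖D.e st A‖ ^ 2 := by
  have hp2 : (2 : ℝ) ≤ p := by exact_mod_cast (Fact.out : p.Prime).two_le
  have hp1 : (0 : ℝ) < (p : ℝ) - 1 := by linarith
  obtain ⟨G, hG⟩ : ∃ G, G = Real.exp (-(2 * K * Real.log p / (p - 1))) := ⟨_, rfl⟩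
  have hG0 : 0 < G := by
    rw [hG]
    exact Real.exp_pos _
  have hlG : Real.log G = -(2 * K * Real.log p / (p - 1)) := by
    rw [hG, Real.log_exp]
  have h5 : ∀ st : (ZMod p)ˣ × ZMod p, 0 < ‖D.e st A‖ := by
    intro st
    exact norm_pos_iff.2 fun h => hA0 ((map_eq_zero _).1 h)
  have h6 : ∀ st : (ZMod p)ˣ × ZMod p,
      1 + 2 * Real.log ‖D.e st A‖ - Real.log G ≤ ‖D.e st A‖ ^ 2 * G⁻¹ := by
    intro st
    have h7 : 0 < ‖D.e st A‖ ^ 2 * G⁻¹ := mul_pos (pow_pos (h5 st) 2) (inv_pos.2 hG0)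
    have h8 := Real.log_le_sub_one_of_pos h7
    rw [Real.log_mul (pow_pos (h5 st) 2).ne' (inv_pos.2 hG0).ne', Real.log_pow, Real.log_inv] at h8
    push_cast at h8
    linarith
  have h9 := Finset.sum_le_sum fun (st : (ZMod p)ˣ × ZMod p) (_ : st ∈ univ) => h6 st
  rw [← Finset.sum_mul, Finset.sum_sub_distrib, Finset.sum_add_distrib, ← Finset.mul_sum,
    Finset.sum_const, Finset.sum_const, Finset.card_univ, Fintype.card_prod, ZMod.card_units, ZMod.card,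
    nsmul_eq_mul, nsmul_eq_mul, hlG] at h9
  have h10 := sum_log_ge D A hA0 K hK
  have hc : (((p - 1) * p : ℕ) : ℝ) = (p - 1) * p := by
    rw [Nat.cast_mul, Nat.cast_sub (Fact.out : p.Prime).one_le, Nat.cast_one]
  rw [hc] at h9
  have h11 : ((p : ℝ) - 1) * p * -(2 * K * Real.log p / (p - 1)) = -(2 * (p * K * Real.log p)) := by
    field_simp
  rw [h11] at h9
  have h12 : ((p : ℝ) - 1) * p ≤ (∑ st : (ZMod p)ˣ × ZMod p, ‖D.e st A‖ ^ 2) * G⁻¹ := by linarith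
  rw [← hG]
  rw [← div_eq_mul_inv, le_div_iff₀ hG0] at h12
  linarith

omit [Fact p.Prime] in
theorem pow_near_one (K : ℕ) :
    ∃ p₁ : ℕ, ∀ p : ℕ, p₁ ≤ p → (9 / 10 : ℝ) ≤ Real.exp (-(2 * K * Real.log p / (p - 1))) := by
  refine ⟨6400 * K ^ 2 + 2, fun p hp => ?_⟩
  have hp' : (6400 * (K : ℝ) ^ 2 + 2) ≤ p := by exact_mod_cast hp
  have hK0 : (0 : ℝ) ≤ K := Nat.cast_nonneg K
  have hp2 : (2 : ℝ) ≤ p := by nlinarith
  have hs : 80 * (K : ℝ) ≤ Real.sqrt p := by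
    apply Real.le_sqrt_of_sq_le
    nlinarith
  have hs2 : Real.sqrt p * Real.sqrt p = p := Real.mul_self_sqrt (by linarith)
  have hs0 : 0 < Real.sqrt p := Real.sqrt_pos.2 (by linarith)
  have h1 := Real.log_le_sub_one_of_pos hs0
  rw [Real.log_sqrt (by linarith)] at h1
  have h2 : Real.log p ≤ 2 * Real.sqrt p := by linarith
  have h3 : 2 * K * Real.log p / (p - 1) ≤ 1 / 10 := by
    rw [div_le_iff₀ (by linarith)]
    have h4 : K * Real.log p ≤ K * (2 * Real.sqrt p) := mul_le_mul_of_nonneg_left h2 hK0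
    have h5 : 80 * (K : ℝ) * Real.sqrt p ≤ Real.sqrt p * Real.sqrt p :=
      mul_le_mul_of_nonneg_right hs hs0.le
    rw [hs2] at h5
    nlinarith
  have h4 := Real.add_one_le_exp (-(2 * K * Real.log p / ((p : ℝ) - 1)))
  linarith

theorem A_integral (D : Dat p b F) (hpb : ¬ p ∣ b) (A : F) (K : ℕ)
    (hK : IsIntegral ℤ (D.pi ^ K * A)) (j : ℕ) (hj : IsIntegral ℤ (A * D.x ^ j)) : IsIntegral ℤ A := by
  have hp : p.Prime := Fact.out
  obtain ⟨w, hw, hpw⟩ := p_eq D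
  have h1 : IsIntegral ℤ ((p : F) ^ K * A) := by
    have h2 : (p : F) ^ K * A = w ^ K * (D.pi ^ K * A) := by
      rw [hpw]
      ring
    rw [h2]
    exact (hw.pow K).mul hK
  have h2 : IsIntegral ℤ ((p : F) ^ (K * p) * A ^ p) := by
    have h3 : (p : F) ^ (K * p) * A ^ p = ((p : F) ^ K * A) ^ p := by
      rw [mul_pow, pow_mul]
    rw [h3]
    exact h1.pow p
  have h3 : IsIntegral ℤ ((b : F) ^ j * A ^ p) := by
    have h4 : (b : F) ^ j * A ^ p = (A * D.x ^ j) ^ p := by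
      rw [mul_pow, ← pow_mul, mul_comm j p, pow_mul, D.hx, mul_comm]
    rw [h4]
    exact hj.pow p
  have hcop : Nat.Coprime (p ^ (K * p)) (b ^ j) :=
    Nat.Coprime.pow _ _ ((Nat.Prime.coprime_iff_not_dvd hp).2 hpb)
  obtain ⟨u, v, huv⟩ := Nat.isCoprime_iff_coprime.2 hcop
  have h5 : A ^ p = (u : F) * ((p : F) ^ (K * p) * A ^ p) + (v : F) * ((b : F) ^ j * A ^ p) := by
    have h6 : (u : F) * (p : F) ^ (K * p) + (v : F) * (b : F) ^ j = 1 := by
      have h7 := congrArg (fun n : ℤ => (n : F)) huv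
      push_cast at h7
      exact h7
    calc A ^ p = ((u : F) * (p : F) ^ (K * p) + (v : F) * (b : F) ^ j) * A ^ p := by rw [h6, one_mul]
      _ = _ := by ring
  refine IsIntegral.of_pow hp.pos ?_
  rw [h5]
  have hi : ∀ n : ℤ, IsIntegral ℤ (n : F) := fun n => isIntegral_algebraMap (R := ℤ) (x := n)
  exact ((hi u).mul h2).add ((hi v).mul h3)

end Pool.Agent.H84.WI
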