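import Mathlib

/-!
# THEOREM W, module Mom (small height and bounded `4q`-th moment: the `2q`-th moment is at most 1.05)
-/

set_option autoImplicit false

namespace Pool.Agent.H84.WI

open Finset

theorem mom (q : ℕ) (C : ℝ) :
    ∃ c : ℝ, 0 < c ∧ ∀ (ι : Type) [Fintype ι] (f : ι → ℝ), (∀ i, 0 ≤ f i) →
      ∑ i, Real.posLog (f i) ≤ c * Fintype.card ι → ∑ i, f i ^ (4 * q) ≤ C * Fintype.card ι →
      ∑ i, f i ^ (2 * q) ≤ 21 / 20 * Fintype.card ι := by
  classical
  -- choose ε
  obtain ⟨ε, hε, hε1⟩ : ∃ ε : ℝ, 0 < ε ∧ (1 + ε) ^ (2 * q) ≤ 51 / 50 := by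
    have hcont : Filter.Tendsto (fun ε : ℝ => (1 + ε) ^ (2 * q)) (nhds 0) (nhds ((1 + 0) ^ (2 * q))) := by
      apply Continuous.tendsto
      fun_prop
    rw [add_zero, one_pow] at hcont
    have h1 := hcont.eventually (gt_mem_nhds (show (1 : ℝ) < 51 / 50 by norm_num))
    rw [Metric.eventually_nhds_iff] at h1
    obtain ⟨δ, hδ, h2⟩ := h1
    refine ⟨δ / 2, by positivity, (h2 ?_).le⟩
    rw [Real.dist_eq, sub_zero, abs_of_pos (by positivity)]
    linarith
  have hlog : 0 < Real.log (1 + ε) := Real.log_pos (by linarith)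
  -- choose c
  set C' : ℝ := max C 1 with hC'
  have hC'1 : 1 ≤ C' := le_max_right _ _
  refine ⟨(3 / 100) ^ 2 * Real.log (1 + ε) / C', by positivity, ?_⟩
  intro ι _ f hf hlg hmo
  set N : ℝ := (Fintype.card ι : ℝ) with hN
  have hN0 : 0 ≤ N := Nat.cast_nonneg _
  set B : Finset ι := Finset.univ.filter (fun i => 1 + ε < f i) with hB
  -- number of bad indices
  have hcardB : (B.card : ℝ) * Real.log (1 + ε) ≤ (3 / 100) ^ 2 * Real.log (1 + ε) / C' * N := by
    calc (B.card : ℝ) * Real.log (1 + ε) = ∑ i ∈ B, Real.log (1 + ε) := by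
          rw [Finset.sum_const, nsmul_eq_mul]
      _ ≤ ∑ i ∈ B, Real.posLog (f i) := by
          apply Finset.sum_le_sum
          intro i hi
          have h1 : 1 + ε < f i := (Finset.mem_filter.1 hi).2
          calc Real.log (1 + ε) ≤ Real.log (f i) := Real.log_le_log (by linarith) h1.le
            _ ≤ Real.posLog (f i) := by
                rw [Real.posLog_apply]
                exact le_max_right _ _
      _ ≤ ∑ i, Real.posLog (f i) :=
          Finset.sum_le_sum_of_subset_of_nonneg (Finset.subset_univ _)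
            (fun i _ _ => Real.posLog_nonneg)
      _ ≤ _ := hlg
  have hcardB' : (B.card : ℝ) ≤ (3 / 100) ^ 2 / C' * N := by
    have h1 : (B.card : ℝ) * Real.log (1 + ε) ≤ ((3 / 100) ^ 2 / C' * N) * Real.log (1 + ε) := by
      calc _ ≤ _ := hcardB
        _ = _ := by ring
    exact le_of_mul_le_mul_right h1 hlog
  -- the bad part, Cauchy-Schwarz
  have hbad : ∑ i ∈ B, f i ^ (2 * q) ≤ 3 / 100 * N := by
    have h1 : (∑ i ∈ B, f i ^ (2 * q)) ^ 2 ≤ (B.card : ℝ) * ∑ i ∈ B, (f i ^ (2 * q)) ^ 2 :=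
      sq_sum_le_card_mul_sum_sq
    have h2 : ∑ i ∈ B, (f i ^ (2 * q)) ^ 2 ≤ C' * N := by
      calc ∑ i ∈ B, (f i ^ (2 * q)) ^ 2 = ∑ i ∈ B, f i ^ (4 * q) := by
            apply Finset.sum_congr rfl
            intro i _
            rw [← pow_mul]
            congr 1
            ring
        _ ≤ ∑ i, f i ^ (4 * q) :=
            Finset.sum_le_sum_of_subset_of_nonneg (Finset.subset_univ _)
              (fun i _ _ => pow_nonneg (hf i) _)
        _ ≤ C * N := hmo
        _ ≤ C' * N := mul_le_mul_of_nonneg_right (le_max_left _ _) hN0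
    have h3 : (∑ i ∈ B, f i ^ (2 * q)) ^ 2 ≤ (3 / 100 * N) ^ 2 := by
      calc _ ≤ (B.card : ℝ) * ∑ i ∈ B, (f i ^ (2 * q)) ^ 2 := h1
        _ ≤ ((3 / 100) ^ 2 / C' * N) * (C' * N) := by
            apply mul_le_mul hcardB' h2 (Finset.sum_nonneg fun i _ => sq_nonneg _) (by positivity)
        _ = (3 / 100 * N) ^ 2 := by
            field_simp
    exact (abs_le_of_sq_le_sq' h3 (by positivity)).2
  have hgood : ∑ i ∈ Finset.univ \ B, f i ^ (2 * q) ≤ 51 / 50 * N := by
    calc ∑ i ∈ Finset.univ \ B, f i ^ (2 * q) ≤ ∑ i ∈ Finset.univ \ B, (51 / 50 : ℝ) := by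
          apply Finset.sum_le_sum
          intro i hi
          have h1 : ¬ (1 + ε < f i) := by
            intro h
            exact (Finset.mem_sdiff.1 hi).2 (Finset.mem_filter.2 ⟨Finset.mem_univ _, h⟩)
          push Not at h1
          exact (pow_le_pow_left₀ (hf i) h1 _).trans hε1
      _ ≤ ∑ i : ι, (51 / 50 : ℝ) :=
          Finset.sum_le_sum_of_subset_of_nonneg (Finset.sdiff_subset)
            (fun i _ _ => by norm_num)
      _ = 51 / 50 * N := by
          rw [Finset.sum_const, nsmul_eq_mul, Finset.card_univ]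
          ring
  have htot : ∑ i, f i ^ (2 * q)
      = ∑ i ∈ Finset.univ \ B, f i ^ (2 * q) + ∑ i ∈ B, f i ^ (2 * q) :=
    (Finset.sum_sdiff (Finset.subset_univ B)).symm
  rw [htot]
  calc _ ≤ 51 / 50 * N + 3 / 100 * N := add_le_add hgood hbad
    _ = 21 / 20 * N := by ring

end Pool.Agent.H84.WI
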