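import Pool.Agent.H84.WI.Def

/-!
# THEOREM W, module Pi (the element `π = z⁻¹ - 1`)

`pi_pow`: in `(ZMod p)[X]`, `(X-1)^(p-1) = 1 + X + .. + X^(p-1)` (cancel `X - 1` in `(X-1)^p = X^p - 1`; or
`cyclotomic_mul_prime_eq_pow_of_not_dvd`), so `(X-1)^(p-1) = ∑ X^i + p Q` in `ℤ[X]`; evaluate at `z⁻¹` (`∑ z^(-i) = 0`
because `z ≠ 1`, `z^p = 1`). `p_eq`: `∑_(i<p) (1+π)^i = 0` and `∑_(i<p) (1+X)^i = p + X Q(X)`. `xi_pow`:
`(w-1)^p = w^p - 1 + p(..)`, `w = x^(p-1)`, `w^p = b^(p-1) = 1 mod p` (Fermat). `zk_pow`: `((z⁻¹)^k - 1)^p = z^(-kp) - 1 + p(..) = p(..)`.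
`norm_pi`: `|∏_(s,t) (χ(-s) - 1)| = (∏_(s ≠ 0) |1 - χ(s)|)^p = p^p` (`Dat.norm_eq`, `Dat.ez`; the product over `s ≠ 0` is the value
at `1` of the cyclotomic polynomial: `Polynomial.eval_one_cyclotomic_prime`, or `1 + X + .. + X^(p-1) = ∏ (X - χ(s))`).
-/

set_option autoImplicit false

namespace Pool.Agent.H84.WI

open Finset

variable {p b : ℕ} [Fact p.Prime] {F : Type} [Field F] [NumberField F]

theorem aeval_integral {w : F} (hw : IsIntegral ℤ w) (R : Polynomial ℤ) :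
    IsIntegral ℤ (Polynomial.aeval w R) := by
  have h := (Polynomial.aeval (⟨w, hw⟩ : integralClosure ℤ F) R).2
  have h2 : ((Polynomial.aeval (⟨w, hw⟩ : integralClosure ℤ F) R : integralClosure ℤ F) : F) =
      Polynomial.aeval w R := by
    exact Polynomial.aeval_subalgebra_coe R (integralClosure ℤ F) ⟨w, hw⟩
  rw [← h2]
  exact h

theorem aeval_congr_p {w : F} (hw : IsIntegral ℤ w) (P Q : Polynomial ℤ)
    (h : P.map (Int.castRingHom (ZMod p)) = Q.map (Int.castRingHom (ZMod p))) :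
    ∃ v : F, IsIntegral ℤ v ∧ Polynomial.aeval w P = Polynomial.aeval w Q + (p : F) * v := by
  have h1 : Polynomial.C (p : ℤ) ∣ P - Q := by
    rw [Polynomial.C_dvd_iff_dvd_coeff]
    intro i
    have h2 := congrArg (fun f => Polynomial.coeff f i) h
    simp only [Polynomial.coeff_map, eq_intCast] at h2
    rw [Polynomial.coeff_sub, ← ZMod.intCast_zmod_eq_zero_iff_dvd]
    push_cast
    rw [h2, sub_self]
  obtain ⟨R, hR⟩ := h1
  refine ⟨Polynomial.aeval w R, aeval_integral hw R, ?_⟩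
  have h3 : P = Q + Polynomial.C (p : ℤ) * R := by rw [← hR]; ring
  rw [h3, map_add, map_mul, Polynomial.aeval_C]
  simp

theorem Dat.zinv_pow (D : Dat p b F) : D.z⁻¹ ^ p = 1 := by rw [inv_pow, D.hz, inv_one]

theorem Dat.zinv_int (D : Dat p b F) : IsIntegral ℤ D.z⁻¹ := by
  refine IsIntegral.of_pow (Fact.out : p.Prime).pos ?_
  rw [D.zinv_pow]
  exact isIntegral_one

theorem Dat.x_int (D : Dat p b F) : IsIntegral ℤ D.x := by
  refine IsIntegral.of_pow (Fact.out : p.Prime).pos ?_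
  rw [D.hx]
  have h := isIntegral_algebraMap (R := ℤ) (A := F) (x := (b : ℤ))
  simpa using h

theorem Dat.geom_zinv (D : Dat p b F) : ∑ i ∈ range p, D.z⁻¹ ^ i = 0 := by
  have h1 : (D.z⁻¹ - 1) * ∑ i ∈ range p, D.z⁻¹ ^ i = 0 := by
    rw [mul_comm, geom_sum_mul, D.zinv_pow, sub_self]
  rcases mul_eq_zero.1 h1 with h | h
  · exact absurd h D.pi_ne_zero
  · exact h

theorem pi_pow (D : Dat p b F) : ∃ v : F, IsIntegral ℤ v ∧ D.pi ^ (p - 1) = (p : F) * v := by
  have hp : p.Prime := Fact.out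
  obtain ⟨v, hv, h⟩ := aeval_congr_p (p := p) D.zinv_int ((Polynomial.X - 1) ^ (p - 1))
    (∑ i ∈ range p, Polynomial.X ^ i) (by
      rw [Polynomial.map_pow, Polynomial.map_sub, Polynomial.map_X, Polynomial.map_one,
        Polynomial.map_sum]
      simp only [Polynomial.map_pow, Polynomial.map_X]
      rw [← Polynomial.cyclotomic_prime (ZMod p) p]
      have := Polynomial.cyclotomic_mul_prime_pow_eq (ZMod p) (p := p) (m := 1) (k := 1)
        (by rw [Nat.dvd_one]; exact hp.one_lt.ne') one_pos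
      simp only [pow_one, mul_one, Polynomial.cyclotomic_one, Nat.sub_self, pow_zero] at this
      exact this.symm)
  refine ⟨v, hv, ?_⟩
  rw [map_pow, map_sub, Polynomial.aeval_X, map_one, map_sum] at h
  simp only [map_pow, Polynomial.aeval_X] at h
  rw [D.geom_zinv, zero_add] at h
  exact h

theorem p_eq (D : Dat p b F) : ∃ w : F, IsIntegral ℤ w ∧ (p : F) = D.pi * w := by
  have h1 : (Polynomial.X - Polynomial.C (1 : ℤ)) ∣
      (∑ i ∈ range p, (Polynomial.X : Polynomial ℤ) ^ i) - Polynomial.C (p : ℤ) := by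
    rw [Polynomial.dvd_iff_isRoot, Polynomial.IsRoot.def, Polynomial.eval_sub,
      Polynomial.eval_finsetSum]
    simp
  obtain ⟨Q, hQ⟩ := h1
  have h2 := congrArg (Polynomial.aeval D.z⁻¹) hQ
  rw [map_sub, map_sum, map_mul, map_sub, Polynomial.aeval_X, Polynomial.aeval_C,
    Polynomial.aeval_C] at h2
  simp only [map_pow, Polynomial.aeval_X] at h2
  rw [D.geom_zinv] at h2
  refine ⟨-Polynomial.aeval D.z⁻¹ Q, (aeval_integral D.zinv_int Q).neg, ?_⟩
  have h3 : D.pi = D.z⁻¹ - (algebraMap ℤ F) 1 := by rw [Dat.pi, map_one]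
  rw [h3, mul_neg, ← h2]
  simp

theorem pow_char_sub {w : F} (hw : IsIntegral ℤ w) :
    ∃ v : F, IsIntegral ℤ v ∧ (w - 1) ^ p = (w ^ p - 1) + (p : F) * v := by
  have hp : p.Prime := Fact.out
  obtain ⟨v, hv, h⟩ := aeval_congr_p (p := p) hw ((Polynomial.X - 1) ^ p)
    (Polynomial.X ^ p - 1) (by
      rw [Polynomial.map_pow, Polynomial.map_sub, Polynomial.map_X, Polynomial.map_one,
        Polynomial.map_sub, Polynomial.map_pow, Polynomial.map_X, Polynomial.map_one,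
        sub_pow_char, one_pow])
  refine ⟨v, hv, ?_⟩
  simpa using h

theorem xi_pow (D : Dat p b F) (hpb : ¬ p ∣ b) :
    ∃ v : F, IsIntegral ℤ v ∧ (D.x ^ (p - 1) - 1) ^ p = (p : F) * v := by
  have hp : p.Prime := Fact.out
  obtain ⟨v, hv, h⟩ := pow_char_sub (p := p) (w := D.x ^ (p - 1)) (D.x_int.pow (p - 1))
  have h1 : (p : ℤ) ∣ (b : ℤ) ^ (p - 1) - 1 := by
    rw [← ZMod.intCast_zmod_eq_zero_iff_dvd]
    push_cast
    rw [ZMod.pow_card_sub_one_eq_one, sub_self]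
    intro h0
    exact hpb ((ZMod.natCast_eq_zero_iff b p).1 h0)
  obtain ⟨t, ht⟩ := h1
  refine ⟨(t : F) + v, ?_, ?_⟩
  · exact (isIntegral_algebraMap (R := ℤ) (A := F) (x := t)).add hv
  · rw [h, ← pow_mul, mul_comm (p - 1) p, pow_mul, D.hx]
    have h2 : (b : F) ^ (p - 1) - 1 = (p : F) * (t : F) := by exact_mod_cast congrArg (Int.cast : ℤ → F) ht
    rw [h2]
    ring

theorem zk_pow (D : Dat p b F) (k : ℕ) :
    ∃ v : F, IsIntegral ℤ v ∧ (D.z⁻¹ ^ k - 1) ^ p = (p : F) * v := by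
  obtain ⟨v, hv, h⟩ := pow_char_sub (p := p) (w := D.z⁻¹ ^ k) (D.zinv_int.pow k)
  refine ⟨v, hv, ?_⟩
  rw [h, ← pow_mul, mul_comm k p, pow_mul, D.zinv_pow, one_pow, sub_self, zero_add]

theorem prod_chi : ∏ s : (ZMod p)ˣ, (1 - chi (s : ZMod p)) = (p : ℂ) := by
  have hp : p.Prime := Fact.out
  have hprim : IsPrimitiveRoot (chi (1 : ZMod p)) (p - 1 + 1) := by
    have h0 : p - 1 + 1 = p := Nat.sub_add_cancel hp.one_le
    rw [h0]
    refine IsPrimitiveRoot.of_map_of_injective (f := RingHom.id ℂ) ?_ Function.injective_id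
    rw [RingHom.id_apply]
    refine (IsPrimitiveRoot.iff_def _ _).2 ⟨?_, ?_⟩
    · rw [chi_pow]; simp [chi_zero]
    · intro l hl
      rw [chi_pow] at hl
      have h1 := chi_eq_one hl
      rw [mul_one] at h1
      exact (ZMod.natCast_eq_zero_iff l p).1 h1
  have h1 := hprim.prod_one_sub_pow_eq_order
  have h2 : ((p - 1 : ℕ) : ℂ) + 1 = (p : ℂ) := by
    have : (p - 1) + 1 = p := Nat.sub_add_cancel hp.one_le
    exact_mod_cast this
  rw [h2] at h1
  rw [← h1]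
  symm
  have hlt : ∀ k ∈ range (p - 1), ((k + 1 : ℕ) : ZMod p) ≠ 0 := by
    intro k hk h
    rw [mem_range] at hk
    have := Nat.le_of_dvd (Nat.succ_pos k) ((ZMod.natCast_eq_zero_iff (k + 1) p).1 h)
    omega
  refine prod_bij (fun k hk => Units.mk0 ((k + 1 : ℕ) : ZMod p) (hlt k hk)) (fun _ _ => mem_univ _) ?_ ?_ ?_
  · intro a ha c hc h
    have h3 := congrArg Units.val h
    simp only [Units.val_mk0] at h3
    rw [mem_range] at ha hc
    rw [ZMod.natCast_eq_natCast_iff, Nat.ModEq, Nat.mod_eq_of_lt (by omega),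
      Nat.mod_eq_of_lt (by omega)] at h3
    omega
  · intro s _
    have hs0 : (s : ZMod p) ≠ 0 := s.ne_zero
    have hv : (s : ZMod p).val ≠ 0 := by
      rw [Ne, ZMod.val_eq_zero]; exact hs0
    have hv2 := ZMod.val_lt (s : ZMod p)
    refine ⟨(s : ZMod p).val - 1, by rw [mem_range]; omega, ?_⟩
    ext
    rw [Units.val_mk0, Nat.sub_add_cancel (by omega), ZMod.natCast_zmod_val]
  · intro k hk
    rw [Units.val_mk0, chi_pow, mul_one]

theorem norm_pi (D : Dat p b F) : |Algebra.norm ℚ D.pi| = (p : ℚ) ^ p := by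
  have h1 := D.norm_eq D.pi
  have h2 : ∀ st : (ZMod p)ˣ × ZMod p, D.e st D.pi = -(1 - chi ((-st.1 : (ZMod p)ˣ) : ZMod p)) := by
    intro st
    rw [Dat.pi, map_sub, map_inv₀, map_one, show D.e st = D.e (st.1, st.2) from rfl, D.ez,
      Units.val_neg, chi_neg]
    rw [show (chi (st.1 : ZMod p))⁻¹ = (starRingEnd ℂ) (chi (st.1 : ZMod p)) from
      Complex.inv_eq_conj (norm_chi _)]
    ring
  have h3 : ‖((Algebra.norm ℚ D.pi : ℚ) : ℂ)‖ = (p : ℝ) ^ p := by
    rw [h1, prod_congr rfl (fun st _ => h2 st), norm_prod]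
    simp only [norm_neg]
    rw [Fintype.prod_prod_type]
    simp only [prod_const, card_univ, ZMod.card]
    rw [prod_pow, ← norm_prod]
    rw [show (∏ s : (ZMod p)ˣ, (1 - chi ((-s : (ZMod p)ˣ) : ZMod p))) =
      ∏ s : (ZMod p)ˣ, (1 - chi (s : ZMod p)) from
      Equiv.prod_comp (Equiv.neg (ZMod p)ˣ) (fun s => 1 - chi (s : ZMod p)), prod_chi]
    simp
  have h4 : ‖((Algebra.norm ℚ D.pi : ℚ) : ℂ)‖ = ((|Algebra.norm ℚ D.pi| : ℚ) : ℝ) := by
    rw [← Complex.ofReal_ratCast, Complex.norm_real, Real.norm_eq_abs, Rat.cast_abs]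
  rw [h4] at h3
  exact_mod_cast h3

end Pool.Agent.H84.WI
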