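import Pool.Agent.H84.WI.Div
import Pool.Agent.H84.WI.Pi

/-!
# THEOREM W, module Co (mixed differences)

`p * (sum) = Tr(Y)`, `Y = a π^(k+1) (w-1)^l`, `w = b/x = x^(p-1)` (`n(s,t) p = Tr(π a z^(-s) x^(-t))`, `Dat.arr`, `Dat.mon`; binomial
theorem for `(z⁻¹ - 1)^k` and `(w - 1)^l`; `(s : ZMod p)` has `z^(-s).val = z⁻¹^s` because `z^p = 1`; `(t : ZMod p).val = t`).
`π^(p-1) = p v`, `(w-1)^p = p v'` (`pi_pow`, `xi_pow`). `Y^(p(p-1)) = a^(..) (p v)^(p(k+1)) (p v')^((p-1) l)`, and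
`p(k+1) + (p-1) l ≥ p(p-1) + 1` because `k + l ≥ p - 1`. So `Y/p` is integral and `(Y/p)^(p(p-1)) = p * integral`; `div_trace`
(with `i = j = 0`, `mon 0 0 = 1`) gives `p ∣ Tr(Y/p)`, so `p^2 ∣ Tr(Y)`.
-/

set_option autoImplicit false

namespace Pool.Agent.H84.WI

open Finset

variable {p b : ℕ} [Fact p.Prime] {F : Type} [Field F] [NumberField F]

theorem z_neg_val (D : Dat p b F) (s : ℕ) : D.z ^ (-(s : ZMod p)).val = D.z⁻¹ ^ s := by
  have h1 : D.z ^ (-(s : ZMod p)).val * D.z ^ s = 1 := by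
    rw [← pow_add]
    have h2 : p ∣ (-(s : ZMod p)).val + s := by
      rw [← ZMod.natCast_eq_zero_iff]
      push_cast
      rw [ZMod.natCast_zmod_val]
      ring
    obtain ⟨c, hc⟩ := h2
    rw [hc, pow_mul, D.hz, one_pow]
  rw [inv_pow]
  exact eq_inv_of_mul_eq_one_left h1

theorem mon_nat (D : Dat p b F) (hb0 : b ≠ 0) (s t : ℕ) (ht : t < p) :
    (b : F) ^ t * D.mon (s : ZMod p) (t : ZMod p) = D.z⁻¹ ^ s * (D.x ^ (p - 1)) ^ t := by
  have hp : p.Prime := Fact.out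
  have hx0 : D.x ≠ 0 := D.x_ne_zero hb0
  rw [Dat.mon, z_neg_val, ZMod.val_natCast_of_lt ht, ← D.hx]
  have h1 : D.x ^ p = D.x ^ (p - 1) * D.x := by
    rw [← pow_succ, Nat.sub_add_cancel hp.one_le]
  rw [h1, mul_pow]
  field_simp

theorem mixed (D : Dat p b F) (hb : Squarefree b) (hpb : ¬ p ∣ b) (a : F) (ha : IsIntegral ℤ a)
    (n : ZMod p → ZMod p → ℤ) (hn : ∀ i j, D.arr (D.pi * a) i j = (n i j : ℚ)) (k l : ℕ)
    (hk : k < p) (hl : l < p) (hkl : p - 1 ≤ k + l) :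
    (p : ℤ) ∣ ∑ s ∈ range (k + 1), ∑ t ∈ range (l + 1),
      (-1) ^ (k + l - s - t) * (k.choose s : ℤ) * (l.choose t : ℤ) * (b : ℤ) ^ t * n s t := by
  have hp : p.Prime := Fact.out
  have hb0 : b ≠ 0 := hb.ne_zero
  have hpF : (p : F) ≠ 0 := by exact_mod_cast hp.ne_zero
  have hpQ : (p : ℚ) ≠ 0 := by exact_mod_cast hp.ne_zero
  obtain ⟨v, hv, hpi⟩ := pi_pow D
  obtain ⟨v', hv', hxi⟩ := xi_pow D hpb
  set w : F := D.x ^ (p - 1) with hw
  set Y : F := a * D.pi ^ (k + 1) * (w - 1) ^ l with hY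
  -- the trace of `Y`
  have hsum : Y = ∑ s ∈ range (k + 1), ∑ t ∈ range (l + 1),
      (((-1) ^ (k + l - s - t) * (k.choose s : ℤ) * (l.choose t : ℤ) * (b : ℤ) ^ t : ℤ) : F) *
        (D.pi * a * D.mon (s : ZMod p) (t : ZMod p)) := by
    have e1 : D.pi ^ k = ∑ s ∈ range (k + 1), D.z⁻¹ ^ s * (-1) ^ (k - s) * (k.choose s : F) := by
      rw [Dat.pi, sub_eq_add_neg, add_pow]
    have e2 : (w - 1) ^ l = ∑ t ∈ range (l + 1), w ^ t * (-1) ^ (l - t) * (l.choose t : F) := by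
      rw [sub_eq_add_neg, add_pow]
    have e3 : Y = (D.pi * a) * (D.pi ^ k * (w - 1) ^ l) := by rw [hY]; ring
    rw [e3, e1, e2, sum_mul_sum, mul_sum]
    refine sum_congr rfl fun s hs => ?_
    rw [mul_sum]
    refine sum_congr rfl fun t ht => ?_
    rw [mem_range] at hs ht
    have h4 := mon_nat D hb0 s t (by omega)
    rw [← hw] at h4
    have h5 : k + l - s - t = (k - s) + (l - t) := by omega
    push_cast
    rw [h5, pow_add]
    calc _ = (D.pi * a) * ((-1) ^ (k - s) * (k.choose s : F) * ((-1) ^ (l - t) * (l.choose t : F))) *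
          (D.z⁻¹ ^ s * w ^ t) := by ring
      _ = _ := by rw [← h4]; ring
  have htr : Algebra.trace ℚ F Y = (p : ℚ) * ((∑ s ∈ range (k + 1), ∑ t ∈ range (l + 1),
      (-1) ^ (k + l - s - t) * (k.choose s : ℤ) * (l.choose t : ℤ) * (b : ℤ) ^ t * n s t : ℤ) : ℚ) := by
    rw [hsum, map_sum, Int.cast_sum, mul_sum]
    refine sum_congr rfl fun s hs => ?_
    rw [map_sum, Int.cast_sum, mul_sum]
    refine sum_congr rfl fun t ht => ?_
    set c : ℤ := (-1) ^ (k + l - s - t) * (k.choose s : ℤ) * (l.choose t : ℤ) * (b : ℤ) ^ t with hc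
    have h6 : (c : F) * (D.pi * a * D.mon (s : ZMod p) (t : ZMod p)) =
        (c : ℚ) • (D.pi * a * D.mon (s : ZMod p) (t : ZMod p)) := by
      rw [Algebra.smul_def]; simp
    rw [h6, map_smul, smul_eq_mul]
    have h7 : Algebra.trace ℚ F (D.pi * a * D.mon (s : ZMod p) (t : ZMod p)) =
        (p : ℚ) * (n (s : ZMod p) (t : ZMod p) : ℚ) := by
      have := hn (s : ZMod p) (t : ZMod p)
      rw [Dat.arr] at this
      rw [← this]
      field_simp
    rw [h7]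
    push_cast
    ring
  -- `Y = p y`
  set y : F := Y / (p : F) with hy
  have hYy : Y = (p : F) * y := by rw [hy]; field_simp
  have hpint : IsIntegral ℤ (p : F) := by
    have h := isIntegral_algebraMap (R := ℤ) (A := F) (x := (p : ℤ))
    simpa using h
  obtain ⟨e, he⟩ : ∃ e, p * (k + 1) + (p - 1) * l = p * (p - 1) + 1 + e := by
    refine ⟨p * (k + 1) + (p - 1) * l - (p * (p - 1) + 1), ?_⟩
    have h8 : p * (p - 1) + 1 ≤ p * (k + 1) + (p - 1) * l := by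
      obtain ⟨q, rfl⟩ : ∃ q, p = q + 1 := ⟨p - 1, (Nat.sub_add_cancel hp.one_le).symm⟩
      simp only [Nat.add_sub_cancel] at hkl ⊢
      nlinarith [Nat.mul_le_mul_left q hkl]
    omega
  have hpow : y ^ (p * (p - 1)) = (p : F) *
      (a ^ (p * (p - 1)) * v ^ (p * (k + 1)) * v' ^ ((p - 1) * l) * (p : F) ^ e) := by
    have h9 : ((p : F) * y) ^ (p * (p - 1)) = a ^ (p * (p - 1)) * (D.pi ^ (p - 1)) ^ (p * (k + 1)) *
        ((w - 1) ^ p) ^ ((p - 1) * l) := by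
      rw [← hYy, hY, mul_pow, mul_pow, ← pow_mul, ← pow_mul, ← pow_mul, ← pow_mul]
      rw [show (k + 1) * (p * (p - 1)) = (p - 1) * (p * (k + 1)) by ring,
        show l * (p * (p - 1)) = p * ((p - 1) * l) by ring]
    rw [hpi, hxi, mul_pow, mul_pow, mul_pow] at h9
    have h10 : (p : F) ^ (p * (p - 1)) ≠ 0 := pow_ne_zero _ hpF
    apply mul_left_cancel₀ h10
    rw [h9]
    have h11 : (p : F) ^ (p * (k + 1)) * (p : F) ^ ((p - 1) * l) =
        (p : F) ^ (p * (p - 1)) * ((p : F) * (p : F) ^ e) := by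
      rw [← pow_add, he]
      ring
    calc _ = a ^ (p * (p - 1)) * v ^ (p * (k + 1)) * v' ^ ((p - 1) * l) *
          ((p : F) ^ (p * (k + 1)) * (p : F) ^ ((p - 1) * l)) := by ring
      _ = _ := by rw [h11]; ring
  have hV : IsIntegral ℤ (a ^ (p * (p - 1)) * v ^ (p * (k + 1)) * v' ^ ((p - 1) * l) * (p : F) ^ e) :=
    (((ha.pow _).mul (hv.pow _)).mul (hv'.pow _)).mul (hpint.pow _)
  have hpos : 1 ≤ p * (p - 1) := by
    have := hp.two_le
    have h12 : 0 < p * (p - 1) := Nat.mul_pos hp.pos (by omega)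
    omega
  have hyint : IsIntegral ℤ y := by
    refine IsIntegral.of_pow (n := p * (p - 1)) hpos ?_
    rw [hpow]
    exact hpint.mul hV
  obtain ⟨T, hT⟩ := div_trace D hb hpb y _ hyint hV (p * (p - 1)) hpos hpow 0 0
  have hm : D.mon (0 : ZMod p) (0 : ZMod p) = 1 := by simp [Dat.mon]
  rw [hm, mul_one] at hT
  have hTr : Algebra.trace ℚ F Y = (p : ℚ) * ((p : ℚ) * (T : ℚ)) := by
    have h13 : Y = (p : ℚ) • y := by rw [hYy, Algebra.smul_def]; simp
    rw [h13, map_smul, smul_eq_mul, hT]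
  rw [htr] at hTr
  have h14 := mul_left_cancel₀ hpQ hTr
  exact ⟨T, by exact_mod_cast h14⟩

end Pool.Agent.H84.WI
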