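import Mathlib

/-!
# THEOREM W (MP_187c26_nt): algebraic integers of bounded house in `ℚ(ζ_p, b^(1/p))`

`Dat p b F`: a number field `F` with a `p`-th root of unity `z ≠ 1` and a `p`-th root `x` of `b`, all of whose
embeddings are labelled by `(ZMod p)ˣ × ZMod p`: `e (s,t) z = χ(s)`, `e (s,t) x = ρ χ(t)`, `χ(a) = e^(2πia/p)`,
`ρ = b^(1/p)`. `arr D y i j = Tr(y z^(-i) x^(-j)) / p` (`i, j ∈ ZMod p`, `j` represented by `0 ≤ j.val < p`).
-/

set_option autoImplicit false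

namespace Pool.Agent.H84.WI

open Finset

/-- the standard additive character `e(a/p)` -/
noncomputable def chi {p : ℕ} [Fact p.Prime] (a : ZMod p) : ℂ := ZMod.stdAddChar a

/-- a number field with a `p`-th root of unity, a `p`-th root of `b` and all its embeddings -/
structure Dat (p b : ℕ) [Fact p.Prime] (F : Type) [Field F] [NumberField F] where
  z : F
  x : F
  ρ : ℝ
  hz : z ^ p = 1
  hx : x ^ p = (b : F)
  hρ : 1 ≤ ρ
  hρp : ρ ^ p = (b : ℝ)
  e : (ZMod p)ˣ × ZMod p → (F →+* ℂ)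
  he : Function.Bijective e
  ez : ∀ (s : (ZMod p)ˣ) (t : ZMod p), e (s, t) z = chi (s : ZMod p)
  ex : ∀ (s : (ZMod p)ˣ) (t : ZMod p), e (s, t) x = (ρ : ℂ) * chi t

variable {p b : ℕ} [Fact p.Prime] {F : Type} [Field F] [NumberField F]

/-- the monomial `z^(-i) x^(-j)` -/
noncomputable def Dat.mon (D : Dat p b F) (i j : ZMod p) : F :=
  D.z ^ (-i).val * (D.x ^ j.val)⁻¹

/-- `π = z⁻¹ - 1` -/
noncomputable def Dat.pi (D : Dat p b F) : F := D.z⁻¹ - 1

/-- the array of `y` -/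
noncomputable def Dat.arr (D : Dat p b F) (y : F) (i j : ZMod p) : ℚ :=
  Algebra.trace ℚ F (y * D.mon i j) / p

/-- `y` is `A`-rational: its embeddings do not depend on `t` (that is `y ∈ ℚ(z)`) -/
def Dat.isA (D : Dat p b F) (y : F) : Prop :=
  ∀ (s : (ZMod p)ˣ) (t : ZMod p), D.e (s, t) y = D.e (s, 0) y

/-- the row `j` of `y`: `(1/p) ∑ i, arr y i j z^i` -/
noncomputable def Dat.row (D : Dat p b F) (y : F) (j : ZMod p) : F :=
  (∑ i : ZMod p, ((D.arr y i j : ℚ) : F) * D.z ^ i.val) / (p : F)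

theorem chi_zero : chi (0 : ZMod p) = 1 := by simp [chi]

theorem chi_add (a c : ZMod p) : chi (a + c) = chi a * chi c := by
  simp [chi, AddChar.map_add_eq_mul]

theorem chi_neg (a : ZMod p) : chi (-a) = (starRingEnd ℂ) (chi a) := by
  simp [chi, AddChar.map_neg_eq_conj]

theorem norm_chi (a : ZMod p) : ‖chi a‖ = 1 := by
  simp [chi]

theorem chi_ne_zero (a : ZMod p) : chi a ≠ 0 := by
  intro h
  have := norm_chi a
  rw [h, norm_zero] at this
  exact zero_ne_one this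

theorem chi_eq_one {a : ZMod p} (h : chi a = 1) : a = 0 := by
  have h1 : (ZMod.stdAddChar a : ℂ) = ZMod.stdAddChar (0 : ZMod p) := by
    rw [AddChar.map_zero_eq_one]; exact h
  exact ZMod.injective_stdAddChar h1

theorem chi_pow (a : ZMod p) (n : ℕ) : chi a ^ n = chi ((n : ZMod p) * a) := by
  induction n with
  | zero => simp [chi_zero]
  | succ n ih => rw [pow_succ, ih, ← chi_add]; congr 1; push_cast; ring

theorem sum_chi : ∑ a : ZMod p, chi a = 0 := by
  have h1 : (ZMod.stdAddChar : AddChar (ZMod p) ℂ) ≠ 1 := by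
    intro h
    have h2 : chi (1 : ZMod p) = 1 := by rw [chi, h]; simp
    exact one_ne_zero (chi_eq_one h2)
  exact AddChar.sum_eq_zero_of_ne_one h1

theorem sum_chi_mul (c : ZMod p) : ∑ a : ZMod p, chi (a * c) = if c = 0 then (p : ℂ) else 0 := by
  split_ifs with h
  · subst h; simp [chi_zero, ZMod.card]
  · rw [← sum_chi (p := p)]
    exact Equiv.sum_comp (Equiv.mulRight₀ c h) (fun a => chi a)

theorem Dat.z_ne_zero (D : Dat p b F) : D.z ≠ 0 := by
  intro h
  have := D.hz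
  rw [h, zero_pow (Fact.out : p.Prime).ne_zero] at this
  exact zero_ne_one this

theorem Dat.z_ne_one (D : Dat p b F) : D.z ≠ 1 := by
  intro h
  have h1 := D.ez 1 0
  rw [h, map_one] at h1
  have h2 := chi_eq_one h1.symm
  simp at h2

theorem Dat.x_ne_zero (D : Dat p b F) (hb : b ≠ 0) : D.x ≠ 0 := by
  intro h
  have := D.hx
  rw [h, zero_pow (Fact.out : p.Prime).ne_zero] at this
  exact hb (by exact_mod_cast this.symm)

theorem Dat.pi_ne_zero (D : Dat p b F) : D.pi ≠ 0 := by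
  rw [Dat.pi, sub_ne_zero]
  intro h
  exact D.z_ne_one (inv_eq_one.1 h)

theorem Dat.e_mon (D : Dat p b F) (s : (ZMod p)ˣ) (t i j : ZMod p) :
    D.e (s, t) (D.mon i j) =
      chi (-((s : ZMod p) * i)) * (((D.ρ : ℂ) ^ j.val)⁻¹ * chi (-(t * j))) := by
  rw [Dat.mon, map_mul, map_pow, D.ez, map_inv₀, map_pow, D.ex, chi_pow, mul_pow, chi_pow,
    ZMod.natCast_zmod_val, mul_inv]
  congr 1
  · congr 1; ring
  · congr 1
    rw [ZMod.natCast_zmod_val, chi_neg, mul_comm t j]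
    exact Complex.inv_eq_conj (norm_chi _)

theorem Dat.trace_eq (D : Dat p b F) (y : F) :
    ((Algebra.trace ℚ F y : ℚ) : ℂ) = ∑ st : (ZMod p)ˣ × ZMod p, D.e st y := by
  have h1 := trace_eq_sum_embeddings (K := ℚ) (L := F) ℂ (x := y)
  have h2 : (algebraMap ℚ ℂ) (Algebra.trace ℚ F y) = ((Algebra.trace ℚ F y : ℚ) : ℂ) := rfl
  rw [← h2, h1]
  rw [← Fintype.sum_equiv (RingHom.equivRatAlgHom (R := F) (S := ℂ)) (fun σ => σ y) (fun σ => σ y)
    (fun σ => rfl)]
  exact (Function.Bijective.sum_comp D.he (fun σ : F →+* ℂ => σ y)).symm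

theorem Dat.norm_eq (D : Dat p b F) (y : F) :
    ((Algebra.norm ℚ y : ℚ) : ℂ) = ∏ st : (ZMod p)ˣ × ZMod p, D.e st y := by
  have h1 := Algebra.norm_eq_prod_embeddings (K := ℚ) (L := F) ℂ y
  have h2 : (algebraMap ℚ ℂ) (Algebra.norm ℚ y) = ((Algebra.norm ℚ y : ℚ) : ℂ) := rfl
  rw [← h2, h1]
  rw [← Fintype.prod_equiv (RingHom.equivRatAlgHom (R := F) (S := ℂ)) (fun σ => σ y) (fun σ => σ y)
    (fun σ => rfl)]
  exact (Function.Bijective.prod_comp D.he (fun σ : F →+* ℂ => σ y)).symm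

end Pool.Agent.H84.WI
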