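import Pool.Agent.H84.WI.Int

/-!
# THEOREM W, module Div (divisibility of traces)

If `y^k = p v`, `y`, `v` integral, `k ≥ 1`, then `p ∣ Tr(y z^(-i) x^(-j))`. Proof. `T` integer by `int_trace`.
`y' = y z^(-i) x^(p-j)` has `b * (y * mon i j) = y' ` (as `x^p = b`), `y'` is integral and `y'^k = p v'`, `v'` integral.
`b T = Tr(y') = ∑ φ(y')`. In the ring of all algebraic integers of `ℂ` modulo `p` (characteristic `p`; or
`Finset.sum_pow_char_pow`, `exists_add_pow_prime_pow_eq`) `(b T)^(p^m) = ∑ φ(y')^(p^m) = 0` for `p^m ≥ k`. So `(bT)^(p^m)/p`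
is rational and integral, `p ∣ b T`, and `p` does not divide `b`.
-/

set_option autoImplicit false

namespace Pool.Agent.H84.WI

open Finset

variable {p b : ℕ} [Fact p.Prime] {F : Type} [Field F] [NumberField F]

private theorem sum_pow_aux {R : Type} [CommRing R] (q m : ℕ) (hq : q.Prime) {ι : Type} (s : Finset ι)
    (f : ι → R) : ∃ r : R, (∑ i ∈ s, f i) ^ (q ^ m) = ∑ i ∈ s, f i ^ (q ^ m) + q * r := by
  classical
  induction s using Finset.induction_on with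
  | empty =>
    refine ⟨0, ?_⟩
    simp only [sum_empty, mul_zero, add_zero]
    exact zero_pow (pow_ne_zero m hq.ne_zero)
  | insert a s ha ih =>
    obtain ⟨r, hr⟩ := ih
    obtain ⟨r', hr'⟩ := exists_add_pow_prime_pow_eq hq (f a) (∑ i ∈ s, f i) m
    rw [sum_insert ha, sum_insert ha, hr', hr]
    exact ⟨r + f a * (∑ i ∈ s, f i) * r', by ring⟩

theorem div_trace (D : Dat p b F) (hb : Squarefree b) (hpb : ¬ p ∣ b) (y v : F) (hy : IsIntegral ℤ y)
    (hv : IsIntegral ℤ v) (k : ℕ) (hk : 1 ≤ k) (h : y ^ k = (p : F) * v) (i j : ZMod p) :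
    ∃ T : ℤ, Algebra.trace ℚ F (y * D.mon i j) = (p : ℚ) * T := by
  have hp : p.Prime := Fact.out
  obtain ⟨T, hT⟩ := int_trace D hb y hy i j
  have hb0 : b ≠ 0 := hb.ne_zero
  have hbF : (b : F) ≠ 0 := by exact_mod_cast hb0
  have hx0 : D.x ≠ 0 := D.x_ne_zero hb0
  have hjp : j.val ≤ p := (ZMod.val_lt j).le
  have hzI : IsIntegral ℤ D.z := IsIntegral.of_pow hp.pos (by rw [D.hz]; exact isIntegral_one)
  have hxI : IsIntegral ℤ D.x := IsIntegral.of_pow hp.pos (by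
    rw [D.hx]; exact_mod_cast (isIntegral_algebraMap (R := ℤ) (A := F) (x := (b : ℤ))))
  obtain ⟨M, hM⟩ : ∃ M : F, M = D.z ^ (-i).val * D.x ^ (p - j.val) := ⟨_, rfl⟩
  have hMI : IsIntegral ℤ M := by
    rw [hM]; exact (hzI.pow _).mul (hxI.pow _)
  have hbm : (b : F) * D.mon i j = M := by
    have h1 : D.x ^ (p - j.val) * D.x ^ j.val = (b : F) := by
      rw [← pow_add, Nat.sub_add_cancel hjp, D.hx]
    rw [hM, Dat.mon, ← h1]
    field_simp
  obtain ⟨Y, hY⟩ : ∃ Y : F, Y = y * M := ⟨_, rfl⟩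
  have hYI : IsIntegral ℤ Y := by rw [hY]; exact hy.mul hMI
  have hYk : Y ^ k = (p : F) * (v * M ^ k) := by rw [hY, mul_pow, h, mul_assoc]
  have hkm : k ≤ p ^ k := (Nat.lt_pow_self hp.one_lt).le
  obtain ⟨W, hW⟩ : ∃ W : F, W = v * M ^ k * Y ^ (p ^ k - k) := ⟨_, rfl⟩
  have hWI : IsIntegral ℤ W := by
    rw [hW]; exact (hv.mul (hMI.pow _)).mul (hYI.pow _)
  have hYp : Y ^ (p ^ k) = (p : F) * W := by
    have h1 : Y ^ (p ^ k) = Y ^ k * Y ^ (p ^ k - k) := by rw [← pow_add, Nat.add_sub_cancel' hkm]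
    rw [h1, hYk, hW]; ring
  have htr : Algebra.trace ℚ F Y = (b : ℚ) * T := by
    have h1 : Y = (b : ℚ) • (y * D.mon i j) := by
      rw [hY, ← hbm, Algebra.smul_def]
      simp only [eq_ratCast, Rat.cast_natCast]
      ring
    rw [h1, map_smul, hT, smul_eq_mul]
  -- the ring of all algebraic integers
  obtain ⟨r, hr⟩ := sum_pow_aux (R := integralClosure ℤ ℂ) p k hp
    (Finset.univ : Finset ((ZMod p)ˣ × ZMod p))
    (fun st => ⟨D.e st Y, (hYI.map (D.e st).toIntAlgHom : IsIntegral ℤ (D.e st Y))⟩)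
  have hr2 := congrArg (integralClosure ℤ ℂ).val hr
  simp only [map_pow, map_sum, map_add, map_mul, map_natCast, Subalgebra.coe_val] at hr2
  rw [← D.trace_eq Y, htr] at hr2
  have hsum : ∑ st : (ZMod p)ˣ × ZMod p, (D.e st Y) ^ (p ^ k) =
      (p : ℂ) * ∑ st : (ZMod p)ˣ × ZMod p, D.e st W := by
    rw [mul_sum]
    refine sum_congr rfl fun st _ => ?_
    rw [← map_pow, hYp, map_mul, map_natCast]
  rw [hsum, ← mul_add] at hr2
  obtain ⟨w, hw⟩ : ∃ w : ℂ, w = (∑ st : (ZMod p)ˣ × ZMod p, D.e st W) + (r : ℂ) := ⟨_, rfl⟩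
  have hwI : IsIntegral ℤ w := by
    rw [hw]
    refine IsIntegral.add (IsIntegral.sum _ fun st _ => ?_) r.2
    exact hWI.map (D.e st).toIntAlgHom
  rw [← hw] at hr2
  have hpC : (p : ℂ) ≠ 0 := by exact_mod_cast hp.ne_zero
  have hpQ : (p : ℚ) ≠ 0 := by exact_mod_cast hp.ne_zero
  have hwq : w = algebraMap ℚ ℂ ((((b : ℤ) * T : ℤ) : ℚ) ^ (p ^ k) / p) := by
    have h1 : w = (p : ℂ)⁻¹ * ((((b : ℚ) * (T : ℚ) : ℚ) : ℂ) ^ (p ^ k)) := by
      rw [hr2, ← mul_assoc, inv_mul_cancel₀ hpC, one_mul]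
    rw [h1]
    simp only [eq_ratCast]
    push_cast
    field_simp
  rw [hwq] at hwI
  have hqI : IsIntegral ℤ ((((b : ℤ) * T : ℤ) : ℚ) ^ (p ^ k) / p) :=
    (isIntegral_algebraMap_iff (algebraMap ℚ ℂ).injective).1 hwI
  obtain ⟨n, hn⟩ := IsIntegrallyClosed.isIntegral_iff.1 hqI
  have hdiv : (p : ℤ) ∣ ((b : ℤ) * T) ^ (p ^ k) := by
    refine ⟨n, ?_⟩
    have h1 : (((b : ℤ) * T : ℤ) : ℚ) ^ (p ^ k) = (p : ℚ) * (n : ℚ) := by
      have h2 : (n : ℚ) = (((b : ℤ) * T : ℤ) : ℚ) ^ (p ^ k) / p := by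
        rw [← hn]; simp
      rw [h2]; field_simp
    exact_mod_cast h1
  have hpI : Prime (p : ℤ) := Nat.prime_iff_prime_int.1 hp
  have hdiv2 : (p : ℤ) ∣ (b : ℤ) * T := hpI.dvd_of_dvd_pow hdiv
  rcases hpI.dvd_or_dvd hdiv2 with h1 | h1
  · exact absurd (by exact_mod_cast h1) hpb
  · obtain ⟨T', hT'⟩ := h1
    refine ⟨T', ?_⟩
    rw [hT, hT']
    push_cast
    ring

/-- the array of such a `y` is integral -/
theorem arr_int (D : Dat p b F) (hb : Squarefree b) (hpb : ¬ p ∣ b) (y v : F) (hy : IsIntegral ℤ y)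
    (hv : IsIntegral ℤ v) (k : ℕ) (hk : 1 ≤ k) (h : y ^ k = (p : F) * v) (i j : ZMod p) :
    ∃ T : ℤ, D.arr y i j = (T : ℚ) := by
  obtain ⟨T, hT⟩ := div_trace D hb hpb y v hy hv k hk h i j
  refine ⟨T, ?_⟩
  have hp : (p : ℚ) ≠ 0 := by exact_mod_cast (Fact.out : p.Prime).ne_zero
  rw [Dat.arr, hT, mul_div_cancel_left₀ _ hp]

end Pool.Agent.H84.WI
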