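import Pool.Agent.H84.WI.Def

/-!
# THEOREM W, module Ex (existence of `Dat`)

`F = ℚ(ζ, x)`, `ζ` a primitive `p`-th root of unity, `x^p = b`, `b ≥ 2` squarefree. `ρ = b^(1/p)` real. An embedding `φ` of `F` in
`ℂ` is given by `(s,t)`: `φ ζ = χ(s)` (`s ≠ 0`), `φ x = ρ χ(t)` (`(φ x / ρ)^p = 1`), and `(s,t)` determines `φ` (`adjoin = ⊤`). So the
number `[F:ℚ]` of embeddings is at most `p(p-1)`. `[ℚ(ζ):ℚ] = p - 1` and `[ℚ(x):ℚ] = p` (`X^p - b` is irreducible:
`X_pow_sub_C_irreducible_of_prime`, `b` is no `p`-th power of a rational number since it is squarefree) both divide `[F:ℚ]`, so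
`p(p-1) ∣ [F:ℚ]` and the map is bijective.
-/

set_option autoImplicit false

namespace Pool.Agent.H84.WI

open Finset

variable {p b : ℕ} [Fact p.Prime] {F : Type} [Field F] [NumberField F]

private theorem chi_root {w : ℂ} (hw : w ^ p = 1) : ∃ a : ZMod p, w = chi a := by
  have hp : p.Prime := Fact.out
  have h1 : IsPrimitiveRoot (chi (1 : ZMod p)) p := by
    refine IsPrimitiveRoot.mk_of_lt _ hp.pos ?_ fun l hl hlp h => ?_
    · rw [chi_pow, CharP.cast_eq_zero, zero_mul, chi_zero]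
    · rw [chi_pow, mul_one] at h
      have h2 := chi_eq_one h
      rw [ZMod.natCast_eq_zero_iff] at h2
      exact absurd (Nat.le_of_dvd hl h2) (not_le.2 hlp)
  obtain ⟨i, -, hi⟩ := h1.eq_pow_of_pow_eq_one hw
  refine ⟨(i : ZMod p), ?_⟩
  rw [← hi, chi_pow, mul_one]

private theorem chi_inj {a c : ZMod p} (h : chi a = chi c) : a = c :=
  ZMod.injective_stdAddChar h

private theorem no_root (hb : 2 ≤ b) (hsq : Squarefree b) (r : ℚ) : r ^ p ≠ (b : ℚ) := by
  intro h
  have hp : p.Prime := Fact.out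
  have h1 : IsIntegral ℤ r := by
    refine ⟨Polynomial.X ^ p - Polynomial.C (b : ℤ), Polynomial.monic_X_pow_sub_C _ hp.ne_zero, ?_⟩
    rw [Polynomial.eval₂_sub, Polynomial.eval₂_X_pow, Polynomial.eval₂_C, h, eq_intCast, Int.cast_natCast,
      sub_self]
  obtain ⟨y, hy⟩ := IsIntegrallyClosed.isIntegral_iff.1 h1
  have h2 : y ^ p = (b : ℤ) := by
    have h3 : ((y ^ p : ℤ) : ℚ) = ((b : ℤ) : ℚ) := by
      rw [Int.cast_pow, Int.cast_natCast, ← h, ← hy]
      rfl
    exact_mod_cast h3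
  have h4 : y.natAbs ^ p = b := by
    rw [← Int.natAbs_pow, h2, Int.natAbs_natCast]
  have h5 : y.natAbs * y.natAbs ∣ b := by
    rw [← h4, ← pow_two]
    exact pow_dvd_pow _ hp.two_le
  have h6 := Nat.isUnit_iff.1 (hsq _ h5)
  rw [h6, one_pow] at h4
  omega

theorem exists_dat (hb : 2 ≤ b) (hsq : Squarefree b) (ζ x : F) (hζ : IsPrimitiveRoot ζ p)
    (hx : x ^ p = (b : F)) (htop : IntermediateField.adjoin ℚ ({ζ, x} : Set F) = ⊤) :
    ∃ D : Dat p b F, D.z = ζ ∧ D.x = x := by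
  classical
  have hp : p.Prime := Fact.out
  have hb0 : (0 : ℝ) ≤ b := Nat.cast_nonneg b
  have hb1 : (1 : ℝ) ≤ b := by exact_mod_cast (by omega : 1 ≤ b)
  obtain ⟨ρ, hρ1, hρp⟩ : ∃ ρ : ℝ, 1 ≤ ρ ∧ ρ ^ p = b := by
    refine ⟨(b : ℝ) ^ ((p : ℝ)⁻¹), Real.one_le_rpow hb1 (by positivity), ?_⟩
    exact Real.rpow_inv_natCast_pow hb0 hp.ne_zero
  have hρ0 : (ρ : ℂ) ≠ 0 := by
    rw [Ne, Complex.ofReal_eq_zero]
    exact (zero_lt_one.trans_le hρ1).ne'
  have hρc : (ρ : ℂ) ^ p = (b : ℂ) := by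
    rw [← Complex.ofReal_pow, hρp, Complex.ofReal_natCast]
  -- the labels of an embedding
  have hs : ∀ φ : F →+* ℂ, ∃ s : (ZMod p)ˣ, φ ζ = chi (s : ZMod p) := by
    intro φ
    obtain ⟨a, ha⟩ := chi_root (p := p) (w := φ ζ) (by rw [← map_pow, hζ.pow_eq_one, map_one])
    have ha0 : a ≠ 0 := by
      rintro rfl
      rw [chi_zero] at ha
      have h1 : ζ = 1 := φ.injective (by rw [ha, map_one])
      exact hζ.ne_one hp.one_lt h1
    exact ⟨Units.mk0 a ha0, ha⟩
  have ht : ∀ φ : F →+* ℂ, ∃ t : ZMod p, φ x = (ρ : ℂ) * chi t := by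
    intro φ
    obtain ⟨a, ha⟩ := chi_root (p := p) (w := φ x / ρ) (by
      rw [div_pow, ← map_pow, hx, hρc, map_natCast, div_self]
      exact_mod_cast (by omega : b ≠ 0))
    exact ⟨a, by rw [← ha, mul_div_cancel₀ _ hρ0]⟩
  choose S hS using hs
  choose U hU using ht
  have hinj : Function.Injective fun φ : F →+* ℂ => (S φ, U φ) := by
    intro φ φ' h
    have h1 : S φ = S φ' := congrArg Prod.fst h
    have h2 : U φ = U φ' := congrArg Prod.snd h
    have h3 : φ ζ = φ' ζ := by rw [hS, hS, h1]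
    have h4 : φ x = φ' x := by rw [hU, hU, h2]
    have h5 : (⊤ : IntermediateField ℚ F) ≤ Subfield.toIntermediateField (φ.eqLocusField φ') (fun q => by
        rw [RingHom.mem_eqLocusField, eq_ratCast, map_ratCast, map_ratCast]) := by
      rw [← htop, IntermediateField.adjoin_le_iff]
      rintro y hy
      rcases hy with rfl | rfl
      · exact h3
      · exact h4
    refine RingHom.ext fun y => ?_
    exact h5 (IntermediateField.mem_top (x := y))
  -- the degree
  have hd1 : p - 1 ∣ Module.finrank ℚ F := by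
    have h1 := Polynomial.cyclotomic_eq_minpoly_rat hζ hp.pos
    have h2 := minpoly.degree_dvd (K := ℚ) (IsIntegral.of_finite ℚ ζ)
    rw [← h1, Polynomial.natDegree_cyclotomic, Nat.totient_prime hp] at h2
    exact h2
  have hd2 : p ∣ Module.finrank ℚ F := by
    have h1 := minpoly.eq_of_irreducible_of_monic (A := ℚ) (x := x)
      (X_pow_sub_C_irreducible_of_prime hp (a := (b : ℚ)) (fun r => no_root hb hsq r)) (by
        rw [map_sub, map_pow, Polynomial.aeval_X, Polynomial.aeval_C, hx, map_natCast, sub_self])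
      (Polynomial.monic_X_pow_sub_C _ hp.ne_zero)
    have h2 := minpoly.degree_dvd (K := ℚ) (IsIntegral.of_finite ℚ x)
    rw [← h1, Polynomial.natDegree_X_pow_sub_C] at h2
    exact h2
  have hcop : Nat.Coprime (p - 1) p := by
    refine (Nat.Coprime.symm ((Nat.Prime.coprime_iff_not_dvd hp).2 fun h => ?_))
    have := Nat.le_of_dvd (by have := hp.two_le; omega) h
    have := hp.two_le
    omega
  have hd : (p - 1) * p ≤ Module.finrank ℚ F :=
    Nat.le_of_dvd Module.finrank_pos (hcop.mul_dvd_of_dvd_of_dvd hd1 hd2)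
  have hbij : Function.Bijective fun φ : F →+* ℂ => (S φ, U φ) := by
    rw [Fintype.bijective_iff_injective_and_card]
    refine ⟨hinj, ?_⟩
    refine le_antisymm (Fintype.card_le_of_injective _ hinj) ?_
    rw [NumberField.Embeddings.card F ℂ, Fintype.card_prod, ZMod.card_units_eq_totient,
      Nat.totient_prime hp, ZMod.card]
    exact hd
  obtain ⟨E, hE⟩ : ∃ E : (F →+* ℂ) ≃ (ZMod p)ˣ × ZMod p, ∀ φ, E φ = (S φ, U φ) :=
    ⟨Equiv.ofBijective _ hbij, fun _ => rfl⟩
  have hE1 : ∀ st, S (E.symm st) = st.1 := fun st => by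
    have h1 := hE (E.symm st)
    rw [E.apply_symm_apply] at h1
    exact (congrArg Prod.fst h1).symm
  have hE2 : ∀ st, U (E.symm st) = st.2 := fun st => by
    have h1 := hE (E.symm st)
    rw [E.apply_symm_apply] at h1
    exact (congrArg Prod.snd h1).symm
  refine ⟨{ z := ζ, x := x, ρ := ρ, hz := hζ.pow_eq_one, hx := hx, hρ := hρ1, hρp := hρp,
            e := fun st => E.symm st, he := E.symm.bijective,
            ez := fun s t => by rw [hS, hE1], ex := fun s t => by rw [hU, hE2] }, rfl, rfl⟩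

end Pool.Agent.H84.WI
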