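import Pool.Agent.H84.WI.Star
import Pool.Agent.H84.WI.Ex
import Pool.Agent.H84.WI.Mom
import Pool.Agent.H22.Lh.Hgt
import Pool.Agent.H69.BD.North

/-!
# THEOREM W, module Fin (the theorem for numbers in `ℂ`)
-/

set_option autoImplicit false

namespace Pool.Agent.H84.WI

open Finset NumberField

theorem integral_of_pow_nat {y : ℂ} {p b : ℕ} (hp : 0 < p) (h : y ^ p = (b : ℂ)) : IsIntegral ℤ y := by
  refine IsIntegral.of_pow hp ?_
  rw [h]
  have h0 := isIntegral_algebraMap (R := ℤ) (A := ℂ) (x := (b : ℤ))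
  simpa using h0

theorem numberField_pair {ζ x : ℂ} (hζ : IsIntegral ℤ ζ) (hx : IsIntegral ℤ x) :
    NumberField (IntermediateField.adjoin ℚ ({ζ, x} : Set ℂ)) := by
  refine Pool.H22.Lh.mean_numberField _ (Set.toFinite _) ?_
  intro y hy
  rcases hy with rfl | hy
  · exact hζ.tower_top
  · rw [Set.mem_singleton_iff.1 hy]
    exact hx.tower_top

theorem adjoin_pair_top_aux {ζ x : ℂ} (L : IntermediateField ℚ ℂ)
    (hL : L = IntermediateField.adjoin ℚ ({ζ, x} : Set ℂ)) (hζ : ζ ∈ L) (hx : x ∈ L) :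
    @IntermediateField.adjoin ℚ _ L _ L.algebra' ({⟨ζ, hζ⟩, ⟨x, hx⟩} : Set L) = ⊤ := by
  apply IntermediateField.map_injective L.val
  rw [IntermediateField.adjoin_map, Set.image_pair, ← AlgHom.fieldRange_eq_map,
    IntermediateField.fieldRange_val]
  exact hL.symm

theorem adjoin_pair_top {ζ x : ℂ} (L : IntermediateField ℚ ℂ)
    (hL : L = IntermediateField.adjoin ℚ ({ζ, x} : Set ℂ)) (hζ : ζ ∈ L) (hx : x ∈ L)
    (inst : Algebra ℚ L) :
    @IntermediateField.adjoin ℚ _ L _ inst ({⟨ζ, hζ⟩, ⟨x, hx⟩} : Set L) = ⊤ := by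
  have h : inst = L.algebra' := Subsingleton.elim _ _
  subst h
  exact adjoin_pair_top_aux L hL hζ hx

theorem natDegree_le_finrank (L : IntermediateField ℚ ℂ) [NumberField L] (a : L) :
    (minpoly ℚ (a : ℂ)).natDegree ≤ Module.finrank ℚ L := by
  have h6 := minpoly.algebraMap_eq (A := ℚ) (B := L) (B' := ℂ) (algebraMap L ℂ).injective a
  have h7 : minpoly ℚ (a : ℂ) = minpoly ℚ a := by
    rw [← h6]
    rfl
  rw [h7]
  exact minpoly.natDegree_le a

/-- degree of elements of `ℚ(ζ, x)` -/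
theorem natDegree_le {ζ x α : ℂ} {p b : ℕ} (hp : 0 < p) (hζ : ζ ^ p = 1) (hx : x ^ p = (b : ℂ))
    (hα : α ∈ IntermediateField.adjoin ℚ ({ζ, x} : Set ℂ)) :
    (minpoly ℚ α).natDegree ≤ p * p := by
  have hζi : IsIntegral ℤ ζ := integral_of_pow_nat (b := 1) hp (by rw [hζ]; simp)
  have hxi : IsIntegral ℤ x := integral_of_pow_nat hp hx
  have hNF := numberField_pair hζi hxi
  have h1 : Module.finrank ℚ (IntermediateField.adjoin ℚ ({ζ, x} : Set ℂ)) ≤ p * p := by
    have e : IntermediateField.adjoin ℚ ({ζ, x} : Set ℂ)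
        = IntermediateField.adjoin ℚ ({ζ} : Set ℂ) ⊔ IntermediateField.adjoin ℚ ({x} : Set ℂ) := by
      rw [← IntermediateField.adjoin_union]
      rfl
    rw [e]
    have hroot : ∀ (y : ℂ) (c : ℚ), y ^ p = (c : ℂ) → IsIntegral ℤ y →
        Module.finrank ℚ (IntermediateField.adjoin ℚ ({y} : Set ℂ)) ≤ p := by
      intro y c hy hyi
      rw [IntermediateField.adjoin.finrank hyi.tower_top]
      have hne : (Polynomial.X ^ p - Polynomial.C c : Polynomial ℚ) ≠ 0 :=
        Polynomial.X_pow_sub_C_ne_zero hp c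
      have hdvd : minpoly ℚ y ∣ (Polynomial.X ^ p - Polynomial.C c : Polynomial ℚ) := by
        apply minpoly.dvd
        simp [hy]
      have := Polynomial.natDegree_le_of_dvd hdvd hne
      rwa [Polynomial.natDegree_X_pow_sub_C] at this
    calc _ ≤ _ := IntermediateField.finrank_sup_le _ _
      _ ≤ p * p := Nat.mul_le_mul (hroot ζ 1 (by rw [hζ]; simp) hζi)
          (hroot x b (by rw [hx]; simp) hxi)
  have h2 : (minpoly ℚ α).natDegree ≤ Module.finrank ℚ (IntermediateField.adjoin ℚ ({ζ, x} : Set ℂ)) := by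
    exact natDegree_le_finrank (IntermediateField.adjoin ℚ ({ζ, x} : Set ℂ)) ⟨α, hα⟩
  exact h2.trans h1

/-- the mean of `‖·‖^Q` over the conjugates -/
noncomputable def cmean (Q : ℕ) (α : ℂ) : ℝ := Pool.H22.Lh.meanC (fun z => ‖z‖ ^ Q) α

theorem final (b : ℕ) (hb : 2 ≤ b) (hsq : Squarefree b) : ∃ Q : ℕ, ∀ C : ℝ, ∃ c : ℝ, 0 < c ∧
    ∀ (p : ℕ) (ζ x α : ℂ), p.Prime → ζ ^ p = 1 → x ^ p = (b : ℂ) →
      α ∈ IntermediateField.adjoin ℚ ({ζ, x} : Set ℂ) → IsIntegral ℤ α → α ≠ 0 →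
      cmean Q α ≤ C →
      (∃ (u : ℂ) (j : ℕ), j < p ∧ (∃ k : ℕ, 0 < k ∧ u ^ k = 1) ∧ α = u * x ^ j) ∨
        c ≤ absLogHeight₁ α := by
  obtain ⟨q, p₀, hq, hstar⟩ := star b hb hsq
  refine ⟨4 * q, fun C => ?_⟩
  obtain ⟨c₁, hc₁, hmom⟩ := mom q C
  obtain ⟨c₂, hc₂, hnorth⟩ := Pool.Agent.H69.BD.north (p₀ * p₀)
  refine ⟨min c₁ c₂, lt_min hc₁ hc₂, ?_⟩
  intro p ζ x α hp hζ hx hα hαi hα0 hC
  rw [or_iff_not_imp_right]
  intro hh
  push Not at hh
  have hζi : IsIntegral ℤ ζ := integral_of_pow_nat (b := 1) hp.pos (by rw [hζ]; simp)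
  have hxi : IsIntegral ℤ x := integral_of_pow_nat hp.pos hx
  rcases Nat.lt_or_ge p p₀ with hlt | hge
  · -- small `p`
    have hdeg := natDegree_le hp.pos hζ hx hα
    have hdeg' : (minpoly ℚ α).natDegree ≤ p₀ * p₀ :=
      hdeg.trans (Nat.mul_le_mul hlt.le hlt.le)
    obtain ⟨k, hk, hk1⟩ := hnorth α hαi.tower_top hdeg' hα0 (lt_of_lt_of_le hh (min_le_right _ _))
    exact ⟨α, 0, hp.pos, ⟨k, hk, hk1⟩, by rw [pow_zero, mul_one]⟩
  · -- a primitive root of unity
    have : Fact p.Prime := ⟨hp⟩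
    obtain ⟨ζ', hζ', hα'⟩ : ∃ ζ' : ℂ, IsPrimitiveRoot ζ' p ∧
        α ∈ IntermediateField.adjoin ℚ ({ζ', x} : Set ℂ) := by
      by_cases h1 : ζ = 1
      · refine ⟨Complex.exp (2 * Real.pi * Complex.I / p), Complex.isPrimitiveRoot_exp p hp.ne_zero, ?_⟩
        have hle : IntermediateField.adjoin ℚ ({ζ, x} : Set ℂ) ≤
            IntermediateField.adjoin ℚ ({Complex.exp (2 * Real.pi * Complex.I / p), x} : Set ℂ) := by
          rw [IntermediateField.adjoin_le_iff]
          rintro y (hy | hy)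
          · rw [hy, h1]
            exact one_mem _
          · exact IntermediateField.subset_adjoin _ _ (Or.inr hy)
        exact hle hα
      · refine ⟨ζ, ?_, hα⟩
        exact (IsPrimitiveRoot.iff_orderOf).2 (orderOf_eq_prime hζ h1)
    have hζ'i : IsIntegral ℤ ζ' := integral_of_pow_nat (b := 1) hp.pos (by rw [hζ'.pow_eq_one]; simp)
    have hNF := numberField_pair hζ'i hxi
    set L := IntermediateField.adjoin ℚ ({ζ', x} : Set ℂ) with hL
    have hmζ : ζ' ∈ L := IntermediateField.subset_adjoin _ _ (by simp)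
    have hmx : x ∈ L := IntermediateField.subset_adjoin _ _ (by simp)
    have hprim : IsPrimitiveRoot (⟨ζ', hmζ⟩ : L) p := by
      have h2 : IsPrimitiveRoot ((algebraMap L ℂ) ⟨ζ', hmζ⟩) p := hζ'
      exact IsPrimitiveRoot.of_map_of_injective h2 (algebraMap L ℂ).injective
    have hxL : (⟨x, hmx⟩ : L) ^ p = ((b : ℕ) : L) := by
      apply Subtype.ext
      simpa using hx
    obtain ⟨D, hDz, hDx⟩ := exists_dat (p := p) (b := b) (F := L) hb hsq ⟨ζ', hmζ⟩ ⟨x, hmx⟩ hprim hxL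
      (adjoin_pair_top L hL hmζ hmx _)
    set a : L := ⟨α, hα'⟩ with ha
    have hai : IsIntegral ℤ a := by
      have hinj : Function.Injective (algebraMap L ℂ) := (algebraMap L ℂ).injective
      exact (isIntegral_algebraMap_iff hinj).1 hαi
    have ha0 : a ≠ 0 := fun h => hα0 (congrArg Subtype.val h)
    -- sums over embeddings
    have hcard : (Fintype.card ((ZMod p)ˣ × ZMod p) : ℝ) = (p : ℝ) * (p - 1) := card_st p
    have hfr : (Module.finrank ℚ L : ℝ) = Fintype.card ((ZMod p)ˣ × ZMod p) := by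
      have h3 : Fintype.card (L →+* ℂ) = Module.finrank ℚ L := NumberField.Embeddings.card L ℂ
      have h4 : Fintype.card ((ZMod p)ˣ × ZMod p) = Fintype.card (L →+* ℂ) :=
        Fintype.card_of_bijective D.he
      rw [h4, h3]
    have hsum : ∀ G : ℂ → ℝ, ∑ st : (ZMod p)ˣ × ZMod p, G (D.e st a)
        = (Fintype.card ((ZMod p)ˣ × ZMod p) : ℝ) * Pool.H22.Lh.meanC G α := by
      intro G
      rw [← hfr]
      have h3 := Pool.H22.Lh.meanC_eq L a G
      rw [← h3]
      exact Function.Bijective.sum_comp D.he (fun σ : L →+* ℂ => G (σ a))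
    have hheight : absLogHeight₁ α = Pool.H22.Lh.meanC Pool.H22.Lh.lp α :=
      Pool.H22.Lh.height_eq α hαi
    have hN : (0 : ℝ) ≤ Fintype.card ((ZMod p)ˣ × ZMod p) := Nat.cast_nonneg _
    have h1 := hmom ((ZMod p)ˣ × ZMod p) (fun st => ‖D.e st a‖) (fun _ => norm_nonneg _)
      (by
        have h3 := hsum Pool.H22.Lh.lp
        rw [← hheight] at h3
        have h4 : ∑ st : (ZMod p)ˣ × ZMod p, Real.posLog ‖D.e st a‖
            = (Fintype.card ((ZMod p)ˣ × ZMod p) : ℝ) * absLogHeight₁ α := h3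
        rw [h4, mul_comm]
        exact mul_le_mul_of_nonneg_right (hh.le.trans (min_le_left _ _)) hN)
      (by
        have h3 := hsum (fun z => ‖z‖ ^ (4 * q))
        rw [h3, mul_comm]
        exact mul_le_mul_of_nonneg_right hC hN)
    rw [hcard] at h1
    obtain ⟨u, j, hj, ⟨k, hk, hk1⟩, hau⟩ := hstar p hge L D a hai ha0 h1
    refine ⟨(u : ℂ), j, hj, ⟨k, hk, ?_⟩, ?_⟩
    · have h3 := congrArg (fun y : L => (y : ℂ)) hk1
      simpa using h3
    · have h3 := congrArg (fun y : L => (y : ℂ)) hau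
      rw [hDx] at h3
      simpa using h3

end Pool.Agent.H84.WI
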