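import Pool.Agent.H84.WI.Int

/-!
# THEOREM W, module Fro (Frobenius congruence)

Let `y = π a mon(i,j)`, `Tr(y) = p n(i,j)`. `β' = (z^(-q) - 1) a^q`. `β' z^(-qi) x^(-q j.val) = y^q mod q` (as `(z⁻¹-1)^q = z^(-q) - 1`
mod `q`), and `mon (q i) (q j) = z^(-qi) x^(-q j.val) b^m`, `m = q j.val / p` (`(q j).val = q j.val - m p`, `x^p = b`).
In the ring of algebraic integers of `ℂ` (multiply everything by a power of `b` to remove the denominators of `x^(-j)`, or work with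
`b^N * (..)`): `Tr(y^q) = ∑ φ(y)^q = (∑ φ(y))^q = Tr(y)^q = Tr(y)` mod `q` (`Tr(y) = p n(i,j)` integer, Fermat). So
`p m(qi,qj) = b^m Tr(β' z^(-qi) x^(-q j.val)) = b^m Tr(y^q) = b^m p n(i,j)` mod `q`; cancel `p` (and the power of `b`), `q ≠ p`, `q ∤ b`.
-/

set_option autoImplicit false

namespace Pool.Agent.H84.WI

open Finset

variable {p b : ℕ} [Fact p.Prime] {F : Type} [Field F] [NumberField F]

open NumberField in
/-- the trace of a `q`-th power -/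
private theorem tr_pow (q : ℕ) [Fact q.Prime] (Y : 𝓞 F) :
    ((Algebra.trace ℤ (𝓞 F) (Y ^ q) : ℤ) : ZMod q) = ((Algebra.trace ℤ (𝓞 F) Y : ℤ) : ZMod q) := by
  classical
  obtain ⟨B⟩ : Nonempty (Module.Basis (Module.Free.ChooseBasisIndex ℤ (𝓞 F)) ℤ (𝓞 F)) :=
    ⟨Module.Free.chooseBasis ℤ (𝓞 F)⟩
  have h1 : ∀ y : 𝓞 F, ((Algebra.trace ℤ (𝓞 F) y : ℤ) : ZMod q) =
      Matrix.trace ((Algebra.leftMulMatrix B y).map (Int.castRingHom (ZMod q))) := by
    intro y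
    rw [Algebra.trace_eq_matrix_trace B]
    exact AddMonoidHom.map_trace (Int.castRingHom (ZMod q)) (Algebra.leftMulMatrix B y)
  have h2 : (Algebra.leftMulMatrix B (Y ^ q)).map (Int.castRingHom (ZMod q)) =
      ((Algebra.leftMulMatrix B Y).map (Int.castRingHom (ZMod q))) ^ q := by
    rw [map_pow]
    exact map_pow (Int.castRingHom (ZMod q)).mapMatrix _ q
  rw [h1, h1, h2, ZMod.trace_pow_card, ZMod.pow_card]

open NumberField in
theorem frob (D : Dat p b F) (hb : Squarefree b) (q : ℕ) (hq : q.Prime) (hqb : ¬ q ∣ b) (hqp : q ≠ p)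
    (a : F) (ha : IsIntegral ℤ a) (n m : ZMod p → ZMod p → ℤ)
    (hn : ∀ i j, D.arr (D.pi * a) i j = (n i j : ℚ))
    (hm : ∀ i j, D.arr ((D.z⁻¹ ^ q - 1) * a ^ q) i j = (m i j : ℚ)) (i j : ZMod p) :
    (q : ℤ) ∣ m (q * i) (q * j) - (b : ℤ) ^ ((q * j.val) / p) * n i j := by
  have hp : p.Prime := Fact.out
  have hqf : Fact q.Prime := ⟨hq⟩
  have hb0 : b ≠ 0 := by
    rintro rfl
    exact hqb (dvd_zero q)
  have hx0 := D.x_ne_zero hb0
  have hz0 := D.z_ne_zero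
  have hbF : (b : F) ≠ 0 := Nat.cast_ne_zero.2 hb0
  have hpQ : (p : ℚ) ≠ 0 := Nat.cast_ne_zero.2 hp.ne_zero
  -- integrality
  have hroot : ∀ (y : F) (c : ℕ), y ^ p = (c : F) → IsIntegral ℤ y := by
    intro y c hy
    refine ⟨Polynomial.X ^ p - Polynomial.C (c : ℤ), Polynomial.monic_X_pow_sub_C _ hp.ne_zero, ?_⟩
    rw [Polynomial.eval₂_sub, Polynomial.eval₂_X_pow, Polynomial.eval₂_C, hy, eq_intCast,
      Int.cast_natCast, sub_self]
  have hz : IsIntegral ℤ D.z := hroot _ 1 (by rw [D.hz, Nat.cast_one])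
  have hzi : IsIntegral ℤ D.z⁻¹ := hroot _ 1 (by rw [inv_pow, D.hz, inv_one, Nat.cast_one])
  have hxi : IsIntegral ℤ D.x := hroot _ b D.hx
  obtain ⟨α, hα⟩ : ∃ α : 𝓞 F, (α : F) = D.z⁻¹ := ⟨⟨_, hzi⟩, rfl⟩
  obtain ⟨w, hw⟩ : ∃ w : 𝓞 F, (w : F) = a * D.z ^ (-i).val * D.x ^ (p - j.val) :=
    ⟨⟨_, (ha.mul (hz.pow _)).mul (hxi.pow _)⟩, rfl⟩
  have hjp : j.val ≤ p := (ZMod.val_lt j).le
  have hwb : (w : F) = b * (a * D.mon i j) := by
    have h1 : D.x ^ (p - j.val) = b * (D.x ^ j.val)⁻¹ := by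
      rw [eq_mul_inv_iff_mul_eq₀ (pow_ne_zero _ hx0), ← pow_add, Nat.sub_add_cancel hjp, D.hx]
    rw [hw, Dat.mon, h1]
    ring
  have hα' : algebraMap (𝓞 F) F α = D.z⁻¹ := hα
  have hw' : algebraMap (𝓞 F) F w = b * (a * D.mon i j) := hwb
  -- the monomial
  have hmon : (D.mon ((q : ZMod p) * i) ((q : ZMod p) * j)) =
      (b : F) ^ ((q * j.val) / p) * (D.mon i j) ^ q := by
    have h1 : D.z ^ (-((q : ZMod p) * i)).val = (D.z ^ (-i).val) ^ q := by
      have h2 : -((q : ZMod p) * i) = (((-i).val * q : ℕ) : ZMod p) := by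
        rw [Nat.cast_mul, ZMod.natCast_zmod_val]
        ring
      rw [h2, ZMod.val_natCast, ← pow_eq_pow_mod _ D.hz, pow_mul]
    have h3 : ((q : ZMod p) * j).val = (q * j.val) % p := by
      have h4 : (q : ZMod p) * j = ((q * j.val : ℕ) : ZMod p) := by
        rw [Nat.cast_mul, ZMod.natCast_zmod_val]
      rw [h4, ZMod.val_natCast]
    have h5 : (D.x ^ j.val) ^ q = (b : F) ^ ((q * j.val) / p) * D.x ^ ((q : ZMod p) * j).val := by
      rw [h3, ← D.hx, ← pow_mul, ← pow_mul, ← pow_add, Nat.div_add_mod, mul_comm]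
    rw [Dat.mon, Dat.mon, h1, mul_pow, inv_pow, h5, mul_inv]
    have h6 : (b : F) ^ ((q * j.val) / p) ≠ 0 := pow_ne_zero _ hbF
    field_simp
  -- rational traces
  have hsm : ∀ (k : ℕ) (y : F), Algebra.trace ℚ F ((b : F) ^ k * y) = (b : ℚ) ^ k * Algebra.trace ℚ F y := by
    intro k y
    have h1 : (b : F) ^ k * y = ((b : ℚ) ^ k) • y := by
      rw [Algebra.smul_def, map_pow, map_natCast]
    rw [h1, map_smul, smul_eq_mul]
  have e1 : Algebra.trace ℚ F (D.pi * a * D.mon i j) = p * (n i j : ℚ) := by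
    rw [← hn i j, Dat.arr, mul_div_cancel₀ _ hpQ]
  have e2 : Algebra.trace ℚ F ((D.z⁻¹ ^ q - 1) * a ^ q * D.mon (q * i) (q * j)) =
      p * (m (q * i) (q * j) : ℚ) := by
    rw [← hm (q * i) (q * j), Dat.arr, mul_div_cancel₀ _ hpQ]
  have eY : Algebra.trace ℤ (𝓞 F) ((α - 1) * w) = b * (p * n i j) := by
    have h1 : ((Algebra.trace ℤ (𝓞 F) ((α - 1) * w) : ℤ) : ℚ) = ((b * (p * n i j) : ℤ) : ℚ) := by
      rw [Algebra.coe_trace_int]
      have h2 : algebraMap (𝓞 F) F ((α - 1) * w) = (b : F) ^ 1 * (D.pi * a * D.mon i j) := by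
        rw [map_mul, map_sub, map_one, hα', hw', Dat.pi]
        ring
      change Algebra.trace ℚ F (algebraMap (𝓞 F) F ((α - 1) * w)) = _
      rw [h2, hsm, e1]
      push_cast
      ring
    exact_mod_cast h1
  have eZ : (b : ℤ) ^ ((q * j.val) / p) * Algebra.trace ℤ (𝓞 F) ((α ^ q - 1) * w ^ q) =
      (b : ℤ) ^ q * (p * m (q * i) (q * j)) := by
    have h1 : (((b : ℤ) ^ ((q * j.val) / p) * Algebra.trace ℤ (𝓞 F) ((α ^ q - 1) * w ^ q) : ℤ) : ℚ) =
        (((b : ℤ) ^ q * (p * m (q * i) (q * j)) : ℤ) : ℚ) := by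
      rw [Int.cast_mul, Algebra.coe_trace_int, Int.cast_pow, Int.cast_natCast, ← hsm]
      have h2 : (b : F) ^ ((q * j.val) / p) * algebraMap (𝓞 F) F ((α ^ q - 1) * w ^ q) =
          (b : F) ^ q * ((D.z⁻¹ ^ q - 1) * a ^ q * D.mon (q * i) (q * j)) := by
        rw [map_mul, map_sub, map_one, map_pow, map_pow, hα', hw', hmon]
        ring
      change Algebra.trace ℚ F ((b : F) ^ ((q * j.val) / p) *
        algebraMap (𝓞 F) F ((α ^ q - 1) * w ^ q)) = _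
      rw [h2, hsm, e2]
      push_cast
      ring
    exact_mod_cast h1
  -- the congruence
  have hcong : ((Algebra.trace ℤ (𝓞 F) ((α ^ q - 1) * w ^ q) : ℤ) : ZMod q) =
      ((Algebra.trace ℤ (𝓞 F) ((α - 1) * w) : ℤ) : ZMod q) := by
    obtain ⟨r, hr⟩ := exists_add_pow_prime_eq hq (α - 1) (1 : 𝓞 F)
    have h1 : (α ^ q - 1) * w ^ q = ((α - 1) * w) ^ q + (q : ℤ) • ((α - 1) * r * w ^ q) := by
      rw [sub_add_cancel, one_pow] at hr
      rw [hr, mul_pow, zsmul_eq_mul, Int.cast_natCast]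
      ring
    rw [h1, map_add, map_smul, smul_eq_mul, Int.cast_add, Int.cast_mul, Int.cast_natCast,
      ZMod.natCast_self, zero_mul, add_zero, tr_pow]
  have h1 := congrArg (Int.cast : ℤ → ZMod q) eZ
  rw [Int.cast_mul, hcong, eY] at h1
  have hbq : (b : ZMod q) ≠ 0 := by
    rw [Ne, ZMod.natCast_eq_zero_iff]
    exact hqb
  have hpq : (p : ZMod q) ≠ 0 := by
    rw [Ne, ZMod.natCast_eq_zero_iff]
    intro h
    exact hqp ((Nat.prime_dvd_prime_iff_eq hq hp).1 h)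
  rw [← ZMod.intCast_zmod_eq_zero_iff_dvd, Int.cast_sub, sub_eq_zero]
  push_cast at h1 ⊢
  rw [ZMod.pow_card] at h1
  apply mul_left_cancel₀ (mul_ne_zero hbq hpq)
  linear_combination -h1

end Pool.Agent.H84.WI
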