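import Pool.Agent.H84.WI.Def

/-!
# THEOREM W, module Int (integrality of traces)

Tr(y z^(-i) x^(-j)) is an integer for `y` integral. Proof. `T = Tr(..)` is rational. By `Dat.trace_eq`, `Dat.e_mon`:
`T = ρ^(-j) * I` with `I = ∑ e(y) χ(-(s i)) χ(-(t j))` an algebraic integer of `ℂ` (χ(a) is a root of unity: `chi_pow`,
`chi_zero`). So `T^p b^j = I^p` (`ρ^p = b`) is rational and integral: `T^p * b^j.val ∈ ℤ`, `j.val < p`. As `b` is
squarefree, `T ∈ ℤ`: if a prime `l` divides the denominator of `T` then `l^p ∣ b^j`, but `v_l(b^j) ≤ j < p`.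
-/

set_option autoImplicit false

namespace Pool.Agent.H84.WI

open Finset

variable {p b : ℕ} [Fact p.Prime] {F : Type} [Field F] [NumberField F]

private theorem integral_chi (a : ZMod p) : IsIntegral ℤ (chi a) := by
  have hp : p.Prime := Fact.out
  refine IsIntegral.of_pow (n := p) hp.pos ?_
  rw [chi_pow, CharP.cast_eq_zero, zero_mul, chi_zero]
  exact isIntegral_one

private theorem int_of_pow {T : ℚ} {b j : ℕ} (hp : p.Prime) (hb : Squarefree b) (hj : j < p) (N : ℤ)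
    (h : T ^ p * (b : ℚ) ^ j = N) : ∃ n : ℤ, T = n := by
  have hb0 : b ≠ 0 := hb.ne_zero
  have hden : T.den = 1 := by
    by_contra hne
    obtain ⟨l, hl, hld⟩ := Nat.exists_prime_and_dvd hne
    have hd0 : (T.den : ℚ) ≠ 0 := by exact_mod_cast T.den_nz
    have h1 : (T.num : ℚ) ^ p * (b : ℚ) ^ j = N * (T.den : ℚ) ^ p := by
      have e1 : T * (T.den : ℚ) = T.num := by
        rw [Rat.mul_den_eq_num]
      rw [← h, ← e1]
      ring
    have h2 : T.num ^ p * (b : ℤ) ^ j = N * (T.den : ℤ) ^ p := by exact_mod_cast h1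
    have h3 : (T.den : ℤ) ^ p ∣ T.num ^ p * (b : ℤ) ^ j := ⟨N, by rw [h2]; ring⟩
    have hc : IsCoprime ((T.den : ℤ) ^ p) (T.num ^ p) := by
      refine IsCoprime.pow ?_
      rw [Int.isCoprime_iff_gcd_eq_one, Int.gcd_comm]
      exact T.reduced
    have h4 : (T.den : ℤ) ^ p ∣ (b : ℤ) ^ j := hc.dvd_of_dvd_mul_left h3
    have h5 : T.den ^ p ∣ b ^ j := by exact_mod_cast h4
    have h6 : l ^ p ∣ b ^ j := (pow_dvd_pow_of_dvd hld p).trans h5
    rw [hl.pow_dvd_iff_le_factorization (pow_ne_zero _ hb0), Nat.factorization_pow] at h6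
    have h7 := hb.natFactorization_le_one l
    simp only [Finsupp.smul_apply, smul_eq_mul] at h6
    nlinarith
  refine ⟨T.num, ?_⟩
  rw [← Rat.num_div_den T, hden]
  simp

theorem int_trace (D : Dat p b F) (hb : Squarefree b) (y : F) (hy : IsIntegral ℤ y) (i j : ZMod p) :
    ∃ T : ℤ, Algebra.trace ℚ F (y * D.mon i j) = (T : ℚ) := by
  have hp : p.Prime := Fact.out
  obtain ⟨T, hT⟩ : ∃ T, T = Algebra.trace ℚ F (y * D.mon i j) := ⟨_, rfl⟩
  obtain ⟨I, hI⟩ : ∃ I : ℂ, I = ∑ st : (ZMod p)ˣ × ZMod p,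
      D.e st y * chi (-((st.1 : ZMod p) * i)) * chi (-(st.2 * j)) := ⟨_, rfl⟩
  have hρ0 : (D.ρ : ℂ) ≠ 0 := by
    have := D.hρ
    exact_mod_cast (show D.ρ ≠ 0 by linarith)
  have hIi : IsIntegral ℤ I := by
    rw [hI]
    refine IsIntegral.sum _ fun st _ => ?_
    refine IsIntegral.mul (IsIntegral.mul ?_ (integral_chi _)) (integral_chi _)
    exact hy.map (D.e st).toIntAlgHom
  have hTI : (T : ℂ) * (D.ρ : ℂ) ^ j.val = I := by
    rw [hT, Dat.trace_eq D, Finset.sum_mul, hI]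
    refine Finset.sum_congr rfl fun st _ => ?_
    obtain ⟨s, t⟩ := st
    rw [map_mul, Dat.e_mon]
    field_simp
  have hpow : ((T ^ p * (b : ℚ) ^ j.val : ℚ) : ℂ) = I ^ p := by
    rw [← hTI, mul_pow, ← pow_mul, mul_comm j.val p, pow_mul]
    have : (D.ρ : ℂ) ^ p = (b : ℂ) := by exact_mod_cast congrArg (fun r : ℝ => (r : ℂ)) D.hρp
    rw [this]
    push_cast
    ring
  have hint : IsIntegral ℤ (T ^ p * (b : ℚ) ^ j.val) := by
    have h1 : IsIntegral ℤ ((algebraMap ℚ ℂ) (T ^ p * (b : ℚ) ^ j.val)) := by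
      rw [eq_ratCast, hpow]
      exact hIi.pow p
    exact (isIntegral_algebraMap_iff (algebraMap ℚ ℂ).injective).1 h1
  obtain ⟨N, hN⟩ := IsIntegrallyClosed.isIntegral_iff.1 hint
  obtain ⟨n, hn⟩ := int_of_pow (p := p) hp hb (ZMod.val_lt j) N (by rw [← hN]; simp)
  exact ⟨n, by rw [← hT, hn]⟩

end Pool.Agent.H84.WI
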