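import Pool.Agent.H84.WI.Def

/-!
# THEOREM W, module Kap (an integer with mean square at most 1.05 is a root of unity)

`κ = A Ac`, `e(κ) = |e(A)|^2`. If `κ ≠ 1`: the norms of `A` (`≠ 0`) and of `κ - 1` are nonzero integers (`Dat.norm_eq`,
`Algebra.isIntegral_norm`), so `∑ log |e(A)|^2 ≥ 0`, `∑ log ||e(A)|^2 - 1| ≥ 0`. For `y > 0`, `y ≠ 1`:
`y - 0.7 log y - 0.2 log |y-1| ≥ 1.12` [`y < 1`: `log y ≤ 2y - 1 - log 2`, `log(1-y) ≤ 1 - 2y - log 2`, sum `≥ 0.5 + 0.9 log 2`;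
`y > 1`: `log y ≤ y/1.4 - 1 + log 1.4`, `log 1.4 ≤ 0.4`, `log(y-1) ≤ (y-1)/0.4 - 1`]. Sum over the `p(p-1)` embeddings:
`∑ |e(A)|^2 ≥ 1.12 p(p-1)`, contradiction. So `κ = 1`, all `|e(A)| = 1` and `NumberField.Embeddings.pow_eq_one_of_norm_eq_one`
(every embedding is some `e (s,t)`: `D.he.2`).
-/

set_option autoImplicit false

namespace Pool.Agent.H84.WI

open Finset

variable {p b : ℕ} [Fact p.Prime] {F : Type} [Field F] [NumberField F]

omit [Fact p.Prime] in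
private theorem kap_pt {y : ℝ} (hy : 0 < y) (hy1 : y ≠ 1) :
    28 / 25 ≤ y - 7 / 10 * Real.log y - 1 / 5 * Real.log |y - 1| := by
  rcases lt_or_gt_of_ne hy1 with h | h
  · have h1 : Real.log (2 * y) ≤ 2 * y - 1 := Real.log_le_sub_one_of_pos (by linarith)
    have h2 : Real.log (2 * (1 - y)) ≤ 2 * (1 - y) - 1 :=
      Real.log_le_sub_one_of_pos (by linarith)
    rw [Real.log_mul (by norm_num) hy.ne'] at h1
    rw [Real.log_mul (by norm_num) (by linarith)] at h2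
    have h3 : |y - 1| = 1 - y := by rw [abs_sub_comm, abs_of_pos (by linarith)]
    have h4 : (0.6931471803 : ℝ) < Real.log 2 := Real.log_two_gt_d9
    rw [h3]
    norm_num at h4
    linarith
  · have h1 : Real.log (5 / 7 * y) ≤ 5 / 7 * y - 1 := Real.log_le_sub_one_of_pos (by linarith)
    have h2 : Real.log (5 / 2 * (y - 1)) ≤ 5 / 2 * (y - 1) - 1 :=
      Real.log_le_sub_one_of_pos (by linarith)
    rw [Real.log_mul (by norm_num) hy.ne'] at h1
    rw [Real.log_mul (by norm_num) (by linarith)] at h2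
    have h3 : |y - 1| = y - 1 := abs_of_pos (by linarith)
    have h4 : Real.log (7 / 5) ≤ 7 / 5 - 1 := Real.log_le_sub_one_of_pos (by norm_num)
    have h5 : Real.log (5 / 7) = -Real.log (7 / 5) := by
      rw [← Real.log_inv]; norm_num
    have h6 : 0 ≤ Real.log (5 / 2) := Real.log_nonneg (by norm_num)
    rw [h3]
    linarith

private theorem kap_norm (D : Dat p b F) (B : F) (hB : IsIntegral ℤ B) (hB0 : B ≠ 0) :
    0 ≤ ∑ st : (ZMod p)ˣ × ZMod p, Real.log ‖D.e st B‖ := by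
  have h1 : IsIntegral ℤ (Algebra.norm ℚ B) := Algebra.isIntegral_norm ℚ hB
  obtain ⟨n, hn⟩ := IsIntegrallyClosed.isIntegral_iff.1 h1
  have h2 : Algebra.norm ℚ B ≠ 0 := Algebra.norm_ne_zero_iff.2 hB0
  have hn0 : n ≠ 0 := by
    rintro rfl
    rw [map_zero] at hn
    exact h2 hn.symm
  have h3 := D.norm_eq B
  have h4 : ‖((Algebra.norm ℚ B : ℚ) : ℂ)‖ = |(n : ℝ)| := by
    rw [← hn]
    simp
  have h5 : (1 : ℝ) ≤ |(n : ℝ)| := by
    have := Int.one_le_abs hn0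
    exact_mod_cast this
  rw [h3, norm_prod] at h4
  rw [← Real.log_prod fun st _ => (norm_ne_zero_iff.2 ((map_ne_zero (D.e st)).2 hB0)), h4]
  exact Real.log_nonneg h5

theorem kap (D : Dat p b F) (A Ac : F) (hA : IsIntegral ℤ A) (hA0 : A ≠ 0)
    (hc : ∀ st, D.e st Ac = (starRingEnd ℂ) (D.e st A))
    (hE : ∑ st : (ZMod p)ˣ × ZMod p, ‖D.e st A‖ ^ 2 ≤ 21 / 20 * ((p : ℝ) * (p - 1))) :
    ∃ k : ℕ, 0 < k ∧ A ^ k = 1 := by
  have hp : (2 : ℝ) ≤ p := by exact_mod_cast (Fact.out : p.Prime).two_le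
  -- `Ac` is integral
  have hAc : IsIntegral ℤ Ac := by
    have st : (ZMod p)ˣ × ZMod p := (1, 0)
    have h1 : IsIntegral ℤ (D.e st Ac) := by
      rw [hc st]
      have h2 : IsIntegral ℤ (D.e st A) := hA.map (D.e st).toIntAlgHom
      exact h2.map (starRingEnd ℂ).toIntAlgHom
    exact (isIntegral_algHom_iff (D.e st).toIntAlgHom (D.e st).injective).1 h1
  have hκ : ∀ st, D.e st (A * Ac) = ((‖D.e st A‖ ^ 2 : ℝ) : ℂ) := by
    intro st
    rw [map_mul, hc st, Complex.mul_conj, Complex.normSq_eq_norm_sq]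
  have hpos : ∀ st, 0 < ‖D.e st A‖ ^ 2 := fun st =>
    pow_pos (norm_pos_iff.2 ((map_ne_zero (D.e st)).2 hA0)) 2
  by_cases hk : A * Ac = 1
  · have h1 : ∀ φ : F →+* ℂ, ‖φ A‖ = 1 := by
      intro φ
      obtain ⟨st, rfl⟩ := D.he.2 φ
      have h2 := hκ st
      rw [hk, map_one] at h2
      have h3 : ‖D.e st A‖ ^ 2 = 1 := by exact_mod_cast h2.symm
      exact (pow_eq_one_iff_of_nonneg (norm_nonneg _) two_ne_zero).1 h3
    obtain ⟨n, hn, h2⟩ := NumberField.Embeddings.pow_eq_one_of_norm_eq_one F ℂ hA h1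
    exact ⟨n, hn, h2⟩
  · exfalso
    have hk0 : A * Ac - 1 ≠ 0 := sub_ne_zero.2 hk
    have hi : IsIntegral ℤ (A * Ac - 1) := (hA.mul hAc).sub isIntegral_one
    have h1 := kap_norm D A hA hA0
    have h2 := kap_norm D _ hi hk0
    have e1 : ∀ st, Real.log (‖D.e st A‖ ^ 2) = 2 * Real.log ‖D.e st A‖ := fun st => by
      rw [Real.log_pow]; norm_num
    have e2 : ∀ st, ‖D.e st (A * Ac - 1)‖ = |‖D.e st A‖ ^ 2 - 1| := by
      intro st
      rw [map_sub, map_one, hκ st, ← Complex.ofReal_one, ← Complex.ofReal_sub, Complex.norm_real,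
        Real.norm_eq_abs]
    have e3 : ∀ st, ‖D.e st A‖ ^ 2 ≠ 1 := by
      intro st h3
      have h4 : ‖D.e st (A * Ac - 1)‖ = 0 := by rw [e2 st, h3]; simp
      exact hk0 ((map_eq_zero (D.e st)).1 (norm_eq_zero.1 h4))
    have h3 : ∑ st : (ZMod p)ˣ × ZMod p, (28 / 25 : ℝ) ≤
        ∑ st : (ZMod p)ˣ × ZMod p, (‖D.e st A‖ ^ 2 - 7 / 10 * Real.log (‖D.e st A‖ ^ 2) -
          1 / 5 * Real.log |‖D.e st A‖ ^ 2 - 1|) :=
      Finset.sum_le_sum fun st _ => kap_pt (hpos st) (e3 st)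
    rw [Finset.sum_sub_distrib, Finset.sum_sub_distrib, ← Finset.mul_sum, ← Finset.mul_sum] at h3
    have e4 : ∑ st : (ZMod p)ˣ × ZMod p, Real.log (‖D.e st A‖ ^ 2) =
        2 * ∑ st : (ZMod p)ˣ × ZMod p, Real.log ‖D.e st A‖ := by
      rw [Finset.mul_sum]
      exact Finset.sum_congr rfl fun st _ => e1 st
    have e5 : ∑ st : (ZMod p)ˣ × ZMod p, Real.log |‖D.e st A‖ ^ 2 - 1| =
        ∑ st : (ZMod p)ˣ × ZMod p, Real.log ‖D.e st (A * Ac - 1)‖ :=
      Finset.sum_congr rfl fun st _ => by rw [e2 st]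
    have e6 : ∑ st : (ZMod p)ˣ × ZMod p, (28 / 25 : ℝ) = 28 / 25 * ((p : ℝ) * (p - 1)) := by
      rw [Finset.sum_const, Finset.card_univ, Fintype.card_prod, ZMod.card_units_eq_totient,
        ZMod.card, Nat.totient_prime Fact.out, nsmul_eq_mul]
      push_cast [Nat.cast_sub (Fact.out : p.Prime).one_le]
      ring
    rw [e4, e5, e6] at h3
    have h4 : 0 < (p : ℝ) * (p - 1) := by nlinarith
    nlinarith

end Pool.Agent.H84.WI
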