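import Pool.Agent.H84.WI.Def

/-!
# THEOREM W, module Par (Parseval and Fourier inversion)

`arr y i j * ρ^j = (1/p) ∑_(s,t) e(s,t)(y) χ(-(s i)) χ(-(t j))` (`Dat.trace_eq`, `Dat.e_mon`; extend by `0` at `s = 0`).
`parseval`: `∑_(i,j) |..|^2 = ∑_(s,t) |e(s,t)(y)|^2` (`sum_chi_mul`). `inversion`: apply the injective map `e (s,t)` to both
sides: `∑_j ∑_i arr y i j χ(s i) ρ^j χ(t j) / p = e (s,t) y`, Fourier inversion. `energy_rows`: for fixed `s` the function of `t` is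
`∑_j a_j χ(t j)`, `a_j = e(s,0)(A j) ρ^j`, and `∑_t |..|^2 = p ∑_j |a_j|^2`.
-/

set_option autoImplicit false

namespace Pool.Agent.H84.WI

open Finset

variable {p b : ℕ} [Fact p.Prime] {F : Type} [Field F] [NumberField F]

/-- Parseval in one variable -/
private theorem par_one (a : ZMod p → ℂ) :
    ∑ t : ZMod p, ‖∑ j : ZMod p, a j * chi (t * j)‖ ^ 2 = p * ∑ j : ZMod p, ‖a j‖ ^ 2 := by
  have key : ((∑ t : ZMod p, ‖∑ j : ZMod p, a j * chi (t * j)‖ ^ 2 : ℝ) : ℂ) =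
      ((p * ∑ j : ZMod p, ‖a j‖ ^ 2 : ℝ) : ℂ) := by
    push_cast
    have h1 : ∀ t : ZMod p, ((‖∑ j : ZMod p, a j * chi (t * j)‖ : ℂ)) ^ 2 =
        ∑ j : ZMod p, ∑ k : ZMod p, a j * (starRingEnd ℂ) (a k) * chi (t * (j - k)) := by
      intro t
      rw [← Complex.mul_conj', map_sum, Finset.sum_mul_sum]
      refine Finset.sum_congr rfl fun j _ => Finset.sum_congr rfl fun k _ => ?_
      rw [map_mul, ← chi_neg, mul_sub, sub_eq_add_neg, chi_add]
      ring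
    simp_rw [h1]
    rw [Finset.sum_comm, Finset.mul_sum]
    refine Finset.sum_congr rfl fun j _ => ?_
    rw [Finset.sum_comm]
    have h2 : ∀ k : ZMod p, ∑ t : ZMod p, a j * (starRingEnd ℂ) (a k) * chi (t * (j - k)) =
        if k = j then (p : ℂ) * (a j * (starRingEnd ℂ) (a k)) else 0 := by
      intro k
      rw [← Finset.mul_sum, sum_chi_mul]
      by_cases h : k = j
      · rw [if_pos (sub_eq_zero.2 h.symm), if_pos h, mul_comm]
      · rw [if_neg (sub_ne_zero.2 (Ne.symm h)), if_neg h, mul_zero]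
    simp_rw [h2]
    rw [Finset.sum_ite_eq' Finset.univ j, if_pos (Finset.mem_univ j), Complex.mul_conj']
  exact_mod_cast key

private theorem par_two (a : ZMod p → ℂ) :
    ∑ t : ZMod p, ‖∑ j : ZMod p, a j * chi (-(j * t))‖ ^ 2 = p * ∑ j : ZMod p, ‖a j‖ ^ 2 := by
  rw [← par_one a, ← Equiv.sum_comp (Equiv.neg (ZMod p))
    (fun t => ‖∑ j : ZMod p, a j * chi (t * j)‖ ^ 2)]
  refine Finset.sum_congr rfl fun t _ => ?_
  congr 2
  refine Finset.sum_congr rfl fun j _ => ?_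
  congr 2
  rw [Equiv.neg_apply]
  ring

/-- inversion in one variable -/
private theorem par_inv (f : ZMod p → ℂ) (r : ZMod p) :
    ∑ i : ZMod p, (∑ s : ZMod p, f s * chi (-(s * i))) * chi (r * i) = p * f r := by
  simp_rw [Finset.sum_mul]
  rw [Finset.sum_comm]
  have h2 : ∀ s : ZMod p, ∑ i : ZMod p, f s * chi (-(s * i)) * chi (r * i) =
      if s = r then (p : ℂ) * f s else 0 := by
    intro s
    have h3 : ∀ i : ZMod p, f s * chi (-(s * i)) * chi (r * i) = f s * chi (i * (r - s)) := by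
      intro i
      rw [mul_assoc, ← chi_add]
      congr 2
      ring
    simp_rw [h3]
    rw [← Finset.mul_sum, sum_chi_mul]
    by_cases h : s = r
    · rw [if_pos (sub_eq_zero.2 h.symm), if_pos h, mul_comm]
    · rw [if_neg (sub_ne_zero.2 (Ne.symm h)), if_neg h, mul_zero]
  simp_rw [h2]
  rw [Finset.sum_ite_eq' Finset.univ r, if_pos (Finset.mem_univ r)]

/-- the embeddings, extended by `0` -/
private noncomputable def par_x (D : Dat p b F) (y : F) (s t : ZMod p) : ℂ :=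
  if h : IsUnit s then D.e (h.unit, t) y else 0

private theorem par_x_unit (D : Dat p b F) (y : F) (u : (ZMod p)ˣ) (t : ZMod p) :
    par_x D y (u : ZMod p) t = D.e (u, t) y := by
  rw [par_x, dif_pos u.isUnit, IsUnit.unit_of_val_units]

private theorem par_sum {M : Type} [AddCommMonoid M] (g : ZMod p → M)
    (h : ∀ s, ¬ IsUnit s → g s = 0) : ∑ u : (ZMod p)ˣ, g (u : ZMod p) = ∑ s : ZMod p, g s := by
  refine Fintype.sum_of_injective (fun u : (ZMod p)ˣ => (u : ZMod p)) Units.val_injective _ g ?_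
    (fun _ => rfl)
  intro s hs
  exact h s fun h1 => hs ⟨h1.unit, h1.unit_spec⟩

private theorem par_rho (D : Dat p b F) : (D.ρ : ℂ) ≠ 0 := by
  have h1 : (0 : ℝ) < D.ρ := lt_of_lt_of_le zero_lt_one D.hρ
  exact_mod_cast h1.ne'

private theorem par_arr (D : Dat p b F) (y : F) (i j : ZMod p) :
    ((D.arr y i j : ℚ) : ℂ) * (D.ρ : ℂ) ^ j.val =
      (∑ s : ZMod p, (∑ t : ZMod p, par_x D y s t * chi (-(t * j))) * chi (-(s * i))) / p := by
  have h1 : ((D.arr y i j : ℚ) : ℂ) =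
      (∑ st : (ZMod p)ˣ × ZMod p, D.e st (y * D.mon i j)) / p := by
    rw [Dat.arr, ← Dat.trace_eq]
    push_cast
    rfl
  rw [h1, ← par_sum (fun s : ZMod p =>
    (∑ t : ZMod p, par_x D y s t * chi (-(t * j))) * chi (-(s * i))), Fintype.sum_prod_type,
    div_mul_eq_mul_div, Finset.sum_mul]
  · congr 1
    refine Finset.sum_congr rfl fun s _ => ?_
    rw [Finset.sum_mul, Finset.sum_mul]
    refine Finset.sum_congr rfl fun t _ => ?_
    rw [map_mul, D.e_mon, par_x_unit]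
    have h2 : ((D.ρ : ℂ) ^ j.val)⁻¹ * (D.ρ : ℂ) ^ j.val = 1 :=
      inv_mul_cancel₀ (pow_ne_zero _ (par_rho D))
    linear_combination (D.e (s, t) y * chi (-((s : ZMod p) * i)) * chi (-(t * j))) * h2
  · intro s hs
    have h2 : ∀ t : ZMod p, par_x D y s t = 0 := fun t => by rw [par_x, dif_neg hs]
    simp [h2]

theorem parseval (D : Dat p b F) (hb : b ≠ 0) (y : F) :
    ∑ i : ZMod p, ∑ j : ZMod p, (((D.arr y i j : ℚ) : ℝ) ^ 2 * D.ρ ^ (2 * j.val)) =
      ∑ st : (ZMod p)ˣ × ZMod p, ‖D.e st y‖ ^ 2 := by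
  have hp0 : (p : ℝ) ≠ 0 := by exact_mod_cast (Fact.out : p.Prime).ne_zero
  have h1 : ∀ i j : ZMod p, (((D.arr y i j : ℚ) : ℝ) ^ 2 * D.ρ ^ (2 * j.val)) =
      ‖∑ s : ZMod p, (∑ t : ZMod p, par_x D y s t * chi (-(t * j))) * chi (-(s * i))‖ ^ 2 /
        (p : ℝ) ^ 2 := by
    intro i j
    have h2 : ‖((D.arr y i j : ℚ) : ℂ) * (D.ρ : ℂ) ^ j.val‖ ^ 2 =
        ((D.arr y i j : ℚ) : ℝ) ^ 2 * D.ρ ^ (2 * j.val) := by
      have h3 : ((D.arr y i j : ℚ) : ℂ) * (D.ρ : ℂ) ^ j.val =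
          ((((D.arr y i j : ℚ) : ℝ) * D.ρ ^ j.val : ℝ) : ℂ) := by
        push_cast
        rfl
      rw [h3, Complex.norm_real, Real.norm_eq_abs, sq_abs, mul_pow, ← pow_mul, mul_comm j.val 2]
    rw [← h2, par_arr, norm_div, div_pow, Complex.norm_natCast]
  simp_rw [h1]
  rw [Finset.sum_comm]
  have h4 : ∀ j : ZMod p, ∑ i : ZMod p,
      ‖∑ s : ZMod p, (∑ t : ZMod p, par_x D y s t * chi (-(t * j))) * chi (-(s * i))‖ ^ 2 /
        (p : ℝ) ^ 2 = (∑ s : ZMod p, ‖∑ t : ZMod p, par_x D y s t * chi (-(t * j))‖ ^ 2) / p := by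
    intro j
    rw [← Finset.sum_div, par_two (fun s => ∑ t : ZMod p, par_x D y s t * chi (-(t * j)))]
    rw [pow_two, mul_div_mul_left _ _ hp0]
  simp_rw [h4]
  rw [← Finset.sum_div, Finset.sum_comm]
  have h5 : ∀ s : ZMod p, ∑ j : ZMod p, ‖∑ t : ZMod p, par_x D y s t * chi (-(t * j))‖ ^ 2 =
      p * ∑ t : ZMod p, ‖par_x D y s t‖ ^ 2 := fun s => par_two (fun t => par_x D y s t)
  simp_rw [h5]
  rw [← Finset.mul_sum, mul_div_cancel_left₀ _ hp0, Fintype.sum_prod_type,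
    ← par_sum (fun s : ZMod p => ∑ t : ZMod p, ‖par_x D y s t‖ ^ 2)]
  · simp_rw [par_x_unit]
  · intro s hs
    have h2 : ∀ t : ZMod p, par_x D y s t = 0 := fun t => by rw [par_x, dif_neg hs]
    simp [h2]

theorem sum_arr_sq_le (D : Dat p b F) (hb : b ≠ 0) (y : F) :
    ∑ i : ZMod p, ∑ j : ZMod p, ((D.arr y i j : ℚ) : ℝ) ^ 2 ≤
      ∑ st : (ZMod p)ˣ × ZMod p, ‖D.e st y‖ ^ 2 := by
  rw [← parseval D hb y]
  refine Finset.sum_le_sum fun i _ => Finset.sum_le_sum fun j _ => ?_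
  have h1 : (1 : ℝ) ≤ D.ρ ^ (2 * j.val) := one_le_pow₀ D.hρ
  nlinarith [sq_nonneg ((D.arr y i j : ℚ) : ℝ)]

private theorem par_row (D : Dat p b F) (y : F) (j : ZMod p) (s : (ZMod p)ˣ) (t : ZMod p) :
    D.e (s, t) (D.row y j) =
      (∑ i : ZMod p, ((D.arr y i j : ℚ) : ℂ) * chi ((s : ZMod p) * i)) / p := by
  rw [Dat.row, map_div₀, map_sum, map_natCast]
  congr 1
  refine Finset.sum_congr rfl fun i _ => ?_
  rw [map_mul, map_pow, D.ez, chi_pow, ZMod.natCast_zmod_val, map_ratCast, mul_comm i]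

theorem inversion (D : Dat p b F) (hb : b ≠ 0) (y : F) :
    y = ∑ j : ZMod p, D.row y j * D.x ^ j.val := by
  have hp0 : (p : ℂ) ≠ 0 := by exact_mod_cast (Fact.out : p.Prime).ne_zero
  refine (D.e (1, 0)).injective ?_
  rw [map_sum]
  have h1 : ∀ j : ZMod p, D.e (1, 0) (D.row y j * D.x ^ j.val) =
      ((∑ i : ZMod p, (∑ s : ZMod p, (∑ t : ZMod p, par_x D y s t * chi (-(t * j))) *
        chi (-(s * i))) * chi ((1 : ZMod p) * i)) / (p * p)) * chi ((0 : ZMod p) * j) := by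
    intro j
    rw [map_mul, par_row, map_pow, D.ex, mul_pow, chi_pow, ZMod.natCast_zmod_val, Units.val_one,
      mul_comm j 0, ← mul_assoc]
    congr 1
    rw [div_mul_eq_mul_div, Finset.sum_mul, ← div_div]
    congr 1
    rw [Finset.sum_div]
    refine Finset.sum_congr rfl fun i _ => ?_
    rw [mul_right_comm, par_arr]
    ring
  simp_rw [h1]
  have h2 : ∀ j : ZMod p, (∑ i : ZMod p, (∑ s : ZMod p, (∑ t : ZMod p,
      par_x D y s t * chi (-(t * j))) * chi (-(s * i))) * chi ((1 : ZMod p) * i)) =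
      p * ∑ t : ZMod p, par_x D y 1 t * chi (-(t * j)) := fun j =>
    par_inv (fun s => ∑ t : ZMod p, par_x D y s t * chi (-(t * j))) 1
  simp_rw [h2]
  have h3 : ∀ j : ZMod p, (p * ∑ t : ZMod p, par_x D y 1 t * chi (-(t * j))) / (p * p) *
      chi ((0 : ZMod p) * j) =
      ((∑ t : ZMod p, par_x D y 1 t * chi (-(t * j))) * chi ((0 : ZMod p) * j)) / p := by
    intro j
    rw [mul_div_mul_left _ _ hp0, div_mul_eq_mul_div]
  simp_rw [h3]
  rw [← Finset.sum_div, par_inv (fun t => par_x D y 1 t) 0, mul_div_cancel_left₀ _ hp0]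
  have h4 := par_x_unit D y 1 0
  rw [Units.val_one] at h4
  exact h4.symm

theorem row_isA (D : Dat p b F) (y : F) (j : ZMod p) : D.isA (D.row y j) := by
  intro s t
  rw [par_row, par_row]

theorem energy_rows (D : Dat p b F) (A : ZMod p → F) (hA : ∀ j, D.isA (A j)) :
    ∑ st : (ZMod p)ˣ × ZMod p, ‖D.e st (∑ j : ZMod p, A j * D.x ^ j.val)‖ ^ 2 =
      ∑ j : ZMod p, ∑ st : (ZMod p)ˣ × ZMod p, ‖D.e st (A j * D.x ^ j.val)‖ ^ 2 := by
  have h1 : ∀ (s : (ZMod p)ˣ) (t j : ZMod p), D.e (s, t) (A j * D.x ^ j.val) =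
      (D.e (s, 0) (A j) * (D.ρ : ℂ) ^ j.val) * chi (t * j) := by
    intro s t j
    rw [map_mul, hA j s t, map_pow, D.ex, mul_pow, chi_pow, ZMod.natCast_zmod_val, mul_comm j t,
      mul_assoc]
  rw [Fintype.sum_prod_type, Finset.sum_comm' (t' := Finset.univ)
    (s' := fun _ => Finset.univ) (s := Finset.univ) (t := fun _ => Finset.univ)
    (f := fun (j : ZMod p) (st : (ZMod p)ˣ × ZMod p) => ‖D.e st (A j * D.x ^ j.val)‖ ^ 2)
    (by simp), Fintype.sum_prod_type]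
  refine Finset.sum_congr rfl fun s _ => ?_
  have h2 : ∀ t : ZMod p, ‖D.e (s, t) (∑ j : ZMod p, A j * D.x ^ j.val)‖ ^ 2 =
      ‖∑ j : ZMod p, (D.e (s, 0) (A j) * (D.ρ : ℂ) ^ j.val) * chi (t * j)‖ ^ 2 := by
    intro t
    rw [map_sum]
    simp_rw [h1]
  simp_rw [h2]
  rw [par_one (fun j => D.e (s, 0) (A j) * (D.ρ : ℂ) ^ j.val), Finset.sum_comm, Finset.mul_sum]
  refine Finset.sum_congr rfl fun j _ => ?_
  have h3 : ∀ t : ZMod p, ‖D.e (s, t) (A j * D.x ^ j.val)‖ ^ 2 =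
      ‖D.e (s, 0) (A j) * (D.ρ : ℂ) ^ j.val‖ ^ 2 := by
    intro t
    rw [h1, norm_mul _ (chi _), norm_chi, mul_one]
  simp_rw [h3]
  rw [Finset.sum_const, Finset.card_univ, ZMod.card, nsmul_eq_mul]

end Pool.Agent.H84.WI
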