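import Pool.Agent.H84.WI.Def

/-!
# THEOREM W, module Row (integrality of `π^43 row`)

`π ∑ n(i) z^i = ∑ (n(i+1) - n(i)) z^i` (sum over `ZMod p`, `z^p = 1`). So `π^43 ∑ n(i) z^i = ∑ (Δ^43 n)(i) z^i`, and
`Δ^43 n = 0` modulo `p` because `n` modulo `p` is a polynomial of degree `≤ 42` (`Polynomial`/`fwdDiff`: the difference of a
polynomial of degree `≤ d + 1` has degree `≤ d`). Divide by `p`.
-/

set_option autoImplicit false

namespace Pool.Agent.H84.WI

open Finset

variable {p b : ℕ} [Fact p.Prime] {F : Type} [Field F] [NumberField F]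

private theorem pow_val_succ (D : Dat p b F) (i : ZMod p) :
    D.z ^ (i + 1).val = D.z ^ i.val * D.z := by
  have h1 : (i + 1).val = (i.val + 1) % p := by
    rw [ZMod.val_add]
    congr 2
    have : Fact (1 < p) := ⟨(Fact.out : p.Prime).one_lt⟩
    exact ZMod.val_one p
  rw [h1, ← pow_eq_pow_mod _ D.hz, pow_succ]

private theorem pi_mul_sum (D : Dat p b F) (n : ZMod p → ℤ) :
    D.pi * ∑ i : ZMod p, (n i : F) * D.z ^ i.val =
      ∑ i : ZMod p, ((fwdDiff 1 n i : ℤ) : F) * D.z ^ i.val := by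
  have h1 : D.z⁻¹ * ∑ i : ZMod p, (n i : F) * D.z ^ i.val =
      ∑ i : ZMod p, (n (i + 1) : F) * D.z ^ i.val := by
    rw [← Equiv.sum_comp (Equiv.addRight (1 : ZMod p)) (fun i => (n i : F) * D.z ^ i.val), mul_sum]
    refine sum_congr rfl fun i _ => ?_
    have hz := D.z_ne_zero
    simp only [Equiv.coe_addRight]
    rw [pow_val_succ]
    field_simp
  rw [Dat.pi, sub_mul, h1, one_mul, ← sum_sub_distrib]
  refine sum_congr rfl fun i _ => ?_
  simp only [fwdDiff]
  push_cast
  ring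

private theorem pi_pow_mul_sum (D : Dat p b F) (n : ZMod p → ℤ) (k : ℕ) :
    D.pi ^ k * ∑ i : ZMod p, (n i : F) * D.z ^ i.val =
      ∑ i : ZMod p, (((fwdDiff 1)^[k] n i : ℤ) : F) * D.z ^ i.val := by
  induction k with
  | zero => simp
  | succ k ih =>
    rw [pow_succ', mul_assoc, ih, pi_mul_sum, Function.iterate_succ_apply']

private theorem cast_fwdDiff (n : ZMod p → ℤ) (k : ℕ) (i : ZMod p) :
    (((fwdDiff 1)^[k] n i : ℤ) : ZMod p) =
      (fwdDiff 1)^[k] (fun i => ((n i : ℤ) : ZMod p)) i := by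
  induction k generalizing i with
  | zero => simp
  | succ k ih =>
    rw [Function.iterate_succ_apply', Function.iterate_succ_apply']
    simp only [fwdDiff]
    push_cast
    rw [ih, ih]

theorem row_integral (D : Dat p b F) (y : F) (j : ZMod p) (n : ZMod p → ℤ)
    (hn : ∀ i, D.arr y i j = (n i : ℚ)) (P : Polynomial (ZMod p)) (hP : P.natDegree ≤ 42)
    (h : ∀ i, ((n i : ℤ) : ZMod p) = P.eval i) : IsIntegral ℤ (D.pi ^ 43 * D.row y j) := by
  have hp0 : (p : F) ≠ 0 := by exact_mod_cast (Fact.out : p.Prime).ne_zero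
  have h1 : ∀ i : ZMod p, (p : ℤ) ∣ (fwdDiff 1)^[43] n i := by
    intro i
    rw [← ZMod.intCast_zmod_eq_zero_iff_dvd, cast_fwdDiff]
    have h2 : (fun i => ((n i : ℤ) : ZMod p)) = P.eval := funext h
    rw [h2, Polynomial.fwdDiff_iter_eq_zero_of_degree_lt (by omega)]
    rfl
  choose m hm using h1
  have h3 : D.pi ^ 43 * D.row y j = ∑ i : ZMod p, (m i : F) * D.z ^ i.val := by
    rw [Dat.row, ← mul_div_assoc]
    have h4 : ∑ i : ZMod p, ((D.arr y i j : ℚ) : F) * D.z ^ i.val =
        ∑ i : ZMod p, (n i : F) * D.z ^ i.val := by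
      refine sum_congr rfl fun i _ => ?_
      rw [hn]
      simp
    rw [h4, pi_pow_mul_sum, div_eq_iff hp0, sum_mul]
    refine sum_congr rfl fun i _ => ?_
    rw [hm]
    push_cast
    ring
  rw [h3]
  have hz : IsIntegral ℤ D.z := by
    refine IsIntegral.of_pow (Fact.out : p.Prime).pos ?_
    rw [D.hz]
    exact isIntegral_one
  refine IsIntegral.sum _ fun i _ => ?_
  refine IsIntegral.mul ?_ (hz.pow _)
  exact isIntegral_algebraMap (R := ℤ) (A := F) (x := m i)

end Pool.Agent.H84.WI
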