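import Pool.Agent.H61.WC.Main
import Pool.Agent.H84.WI.Co
import Pool.Agent.H84.WI.Fro
import Pool.Agent.H84.WI.Par
import Pool.Agent.H84.WI.Row
import Pool.Agent.H84.WI.Kap
import Pool.Agent.H84.WI.Big

/-!
# THEOREM W, module Star (assembly of the moment form)
-/

set_option autoImplicit false

namespace Pool.Agent.H84.WI

open Finset

variable {p b : ℕ} [Fact p.Prime] {F : Type} [Field F] [NumberField F]

theorem norm_e_z (D : Dat p b F) (st : (ZMod p)ˣ × ZMod p) : ‖D.e st D.z‖ = 1 := by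
  obtain ⟨s, t⟩ := st
  rw [D.ez, norm_chi]

theorem norm_e_zk (D : Dat p b F) (st : (ZMod p)ˣ × ZMod p) (k : ℕ) :
    ‖D.e st (D.z⁻¹ ^ k - 1)‖ ≤ 2 := by
  rw [map_sub, map_pow, map_inv₀, map_one]
  calc _ ≤ ‖((D.e st) D.z)⁻¹ ^ k‖ + ‖(1 : ℂ)‖ := norm_sub_le _ _
    _ = 2 := by
        rw [norm_pow, norm_inv, norm_e_z, inv_one, one_pow, norm_one]
        norm_num

theorem norm_e_x (D : Dat p b F) (st : (ZMod p)ˣ × ZMod p) (j : ℕ) :
    1 ≤ ‖D.e st (D.x ^ j)‖ := by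
  obtain ⟨s, t⟩ := st
  rw [map_pow, D.ex, norm_pow, norm_mul, norm_chi, mul_one, Complex.norm_real,
    Real.norm_of_nonneg (by linarith [D.hρ])]
  exact one_le_pow₀ D.hρ

theorem row_sum_zero (D : Dat p b F) (y : F) (j : ZMod p) : ∑ i : ZMod p, D.arr y i j = 0 := by
  have h1 : ((∑ i : ZMod p, D.arr y i j : ℚ) : ℂ) = 0 := by
    push_cast
    simp only [Dat.arr]
    push_cast
    rw [← Finset.sum_div]
    simp only [D.trace_eq, map_mul]
    rw [Finset.sum_comm]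
    have h2 : ∀ st ∈ (Finset.univ : Finset ((ZMod p)ˣ × ZMod p)),
        ∑ i : ZMod p, D.e st y * D.e st (D.mon i j) = 0 := by
      rintro ⟨s, t⟩ _
      simp only [D.e_mon]
      rw [← Finset.mul_sum, ← Finset.sum_mul]
      have h3 : ∑ i : ZMod p, chi (-((s : ZMod p) * i)) = 0 := by
        have h4 := sum_chi_mul (p := p) (-(s : ZMod p))
        rw [if_neg (neg_ne_zero.2 s.ne_zero)] at h4
        rw [← h4]
        apply Finset.sum_congr rfl
        intro i _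
        congr 1
        ring
      rw [h3, zero_mul, mul_zero]
    rw [Finset.sum_eq_zero h2, zero_div]
  exact_mod_cast h1

theorem card_st (p : ℕ) [Fact p.Prime] :
    (Fintype.card ((ZMod p)ˣ × ZMod p) : ℝ) = (p : ℝ) * (p - 1) := by
  rw [Fintype.card_prod, ZMod.card, ZMod.card_units]
  rw [Nat.cast_mul, Nat.cast_sub (Fact.out : p.Prime).one_le]
  push_cast
  ring

/-- power means -/
theorem mean_sq_le {ι : Type} [Fintype ι] [Nonempty ι] (f : ι → ℝ) (q : ℕ)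
    (hq : 1 ≤ q) (h : ∑ i, f i ^ (2 * q) ≤ 21 / 20 * Fintype.card ι) :
    ∑ i, f i ^ 2 ≤ 21 / 20 * Fintype.card ι := by
  have hN : (0 : ℝ) < Fintype.card ι := by exact_mod_cast Fintype.card_pos
  have h2 := Real.pow_arith_mean_le_arith_mean_pow Finset.univ (fun _ : ι => (Fintype.card ι : ℝ)⁻¹)
    (fun i => f i ^ 2) (fun _ _ => by positivity) (by
      rw [Finset.sum_const, Finset.card_univ, nsmul_eq_mul, mul_inv_cancel₀ hN.ne'])
    (fun i _ => sq_nonneg _) q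
  rw [← Finset.mul_sum, ← Finset.mul_sum] at h2
  have h3 : ∑ i, (f i ^ 2) ^ q = ∑ i, f i ^ (2 * q) := by
    apply Finset.sum_congr rfl
    intro i _
    rw [pow_mul]
  rw [h3] at h2
  have h4 : (Fintype.card ι : ℝ)⁻¹ * ∑ i, f i ^ (2 * q) ≤ 21 / 20 := by
    rw [inv_mul_le_iff₀ hN]
    linarith
  have h5 : (Fintype.card ι : ℝ)⁻¹ * ∑ i, f i ^ 2 ≤ 21 / 20 := by
    by_contra hne
    push Not at hne
    have h6 : (21 / 20 : ℝ) < ((Fintype.card ι : ℝ)⁻¹ * ∑ i, f i ^ 2) ^ q := by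
      calc (21 / 20 : ℝ) < (Fintype.card ι : ℝ)⁻¹ * ∑ i, f i ^ 2 := hne
        _ ≤ _ := le_self_pow₀ (by linarith) (by omega)
    linarith
  rw [inv_mul_le_iff₀ hN] at h5
  linarith

theorem star (b : ℕ) (hb : 2 ≤ b) (hsq : Squarefree b) : ∃ q p₀ : ℕ, 1 ≤ q ∧
    ∀ (p : ℕ) [Fact p.Prime], p₀ ≤ p → ∀ (F : Type) [Field F] [NumberField F] (D : Dat p b F) (a : F),
      IsIntegral ℤ a → a ≠ 0 →
      ∑ st : (ZMod p)ˣ × ZMod p, ‖D.e st a‖ ^ (2 * q) ≤ 21 / 20 * ((p : ℝ) * (p - 1)) →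
      ∃ (u : F) (j : ℕ), j < p ∧ (∃ k : ℕ, 0 < k ∧ u ^ k = 1) ∧ a = u * D.x ^ j := by
  classical
  obtain ⟨q, p₀, hq, hqb, hwc⟩ := Pool.Agent.H61.WC.wc_main b hb
  obtain ⟨p₁, hp₁⟩ := pow_near_one 44
  refine ⟨q, max (max p₀ p₁) (b + q + 3), hq.one_le, ?_⟩
  intro p _ hp F _ _ D a ha ha0 hE
  have hp0 : p₀ ≤ p := le_trans (le_trans (le_max_left _ _) (le_max_left _ _)) hp
  have hp1 : p₁ ≤ p := le_trans (le_trans (le_max_right _ _) (le_max_left _ _)) hp
  have hp2 : b + q + 3 ≤ p := le_trans (le_max_right _ _) hp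
  have hpp := (Fact.out : p.Prime)
  have hpb : ¬ p ∣ b := fun h => by
    have := Nat.le_of_dvd (by omega) h
    omega
  have hqp : q ≠ p := by omega
  have hb0 : b ≠ 0 := by omega
  have hpR : (3 : ℝ) ≤ p := by
    have : 3 ≤ p := by omega
    exact_mod_cast this
  have hcard := card_st p
  have hsq2 : ∑ st : (ZMod p)ˣ × ZMod p, ‖D.e st a‖ ^ 2 ≤ 21 / 20 * ((p : ℝ) * (p - 1)) := by
    have := mean_sq_le (fun st : (ZMod p)ˣ × ZMod p => ‖D.e st a‖) q
      hq.one_le (by rw [hcard]; exact hE)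
    rwa [hcard] at this
  -- the arrays
  have hpZ : IsIntegral ℤ ((p : ℕ) : F) := by
    have h0 := isIntegral_algebraMap (R := ℤ) (A := F) (x := (p : ℤ))
    simpa using h0
  obtain ⟨v, hv, hpi⟩ := pi_pow D
  have hpiInt : IsIntegral ℤ D.pi := by
    refine IsIntegral.of_pow (n := p - 1) (by omega) ?_
    rw [hpi]
    exact hpZ.mul hv
  obtain ⟨v', hv', hzk⟩ := zk_pow D q
  have hzkInt : IsIntegral ℤ (D.z⁻¹ ^ q - 1) := by
    refine IsIntegral.of_pow (n := p) hpp.pos ?_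
    rw [hzk]
    exact hpZ.mul hv'
  have hn : ∀ i j, ∃ T : ℤ, D.arr (D.pi * a) i j = (T : ℚ) := fun i j =>
    arr_int D hsq hpb (D.pi * a) (v * a ^ (p - 1)) (hpiInt.mul ha) (hv.mul (ha.pow _)) (p - 1)
      (by omega) (by rw [mul_pow, hpi, mul_assoc]) i j
  have hm : ∀ i j, ∃ T : ℤ, D.arr ((D.z⁻¹ ^ q - 1) * a ^ q) i j = (T : ℚ) := fun i j =>
    arr_int D hsq hpb ((D.z⁻¹ ^ q - 1) * a ^ q) (v' * (a ^ q) ^ p) (hzkInt.mul (ha.pow _))
      (hv'.mul ((ha.pow _).pow _)) p hpp.one_le (by rw [mul_pow, hzk, mul_assoc]) i j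
  choose n hn using hn
  choose m hm using hm
  -- energies
  have hE1 : ∑ i, ∑ j, (n i j) ^ 2 ≤ 5 * (p : ℤ) ^ 2 := by
    have h1 := sum_arr_sq_le D hb0 (D.pi * a)
    have h2 : ∑ st : (ZMod p)ˣ × ZMod p, ‖D.e st (D.pi * a)‖ ^ 2
        ≤ 4 * ∑ st : (ZMod p)ˣ × ZMod p, ‖D.e st a‖ ^ 2 := by
      rw [Finset.mul_sum]
      apply Finset.sum_le_sum
      intro st _
      rw [map_mul, norm_mul, mul_pow]
      apply mul_le_mul_of_nonneg_right _ (by positivity)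
      have h3 := norm_e_zk D st 1
      rw [pow_one] at h3
      have h4 : ‖D.e st D.pi‖ ≤ 2 := h3
      nlinarith [norm_nonneg (D.e st D.pi)]
    have h3 : ((∑ i, ∑ j, (n i j) ^ 2 : ℤ) : ℝ) ≤ ((5 * (p : ℤ) ^ 2 : ℤ) : ℝ) := by
      push_cast
      calc ∑ i, ∑ j, ((n i j : ℤ) : ℝ) ^ 2 = ∑ i, ∑ j, ((D.arr (D.pi * a) i j : ℚ) : ℝ) ^ 2 := by
            simp only [hn, Rat.cast_intCast]
        _ ≤ _ := h1
        _ ≤ _ := h2
        _ ≤ 4 * (21 / 20 * ((p : ℝ) * (p - 1))) := by linarith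
        _ ≤ 5 * (p : ℝ) ^ 2 := by nlinarith
    exact_mod_cast h3
  have hE2 : ∑ i, ∑ j, (m i j) ^ 2 ≤ 5 * (p : ℤ) ^ 2 := by
    have h1 := sum_arr_sq_le D hb0 ((D.z⁻¹ ^ q - 1) * a ^ q)
    have h2 : ∑ st : (ZMod p)ˣ × ZMod p, ‖D.e st ((D.z⁻¹ ^ q - 1) * a ^ q)‖ ^ 2
        ≤ 4 * ∑ st : (ZMod p)ˣ × ZMod p, ‖D.e st a‖ ^ (2 * q) := by
      rw [Finset.mul_sum]
      apply Finset.sum_le_sum
      intro st _
      rw [map_mul, norm_mul, mul_pow, map_pow, norm_pow, ← pow_mul, mul_comm q 2]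
      apply mul_le_mul_of_nonneg_right _ (by positivity)
      have h3 := norm_e_zk D st q
      nlinarith [norm_nonneg (D.e st (D.z⁻¹ ^ q - 1))]
    have h3 : ((∑ i, ∑ j, (m i j) ^ 2 : ℤ) : ℝ) ≤ ((5 * (p : ℤ) ^ 2 : ℤ) : ℝ) := by
      push_cast
      calc ∑ i, ∑ j, ((m i j : ℤ) : ℝ) ^ 2
          = ∑ i, ∑ j, ((D.arr ((D.z⁻¹ ^ q - 1) * a ^ q) i j : ℚ) : ℝ) ^ 2 := by
            simp only [hm, Rat.cast_intCast]
        _ ≤ _ := h1
        _ ≤ _ := h2
        _ ≤ 4 * (21 / 20 * ((p : ℝ) * (p - 1))) := by linarith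
        _ ≤ 5 * (p : ℝ) ^ 2 := by nlinarith
    exact_mod_cast h3
  have hR : ∀ j, ∑ i, n i j = 0 := by
    intro j
    have h1 := row_sum_zero D (D.pi * a) j
    simp only [hn] at h1
    exact_mod_cast h1
  have hFr := frob D hsq q hq hqb hqp a ha n m hn hm
  have hCo : ∀ k l : ℕ, k < p → l < p → p - 1 ≤ k + l →
        (p : ℤ) ∣ ∑ s ∈ Finset.range (k + 1), ∑ t ∈ Finset.range (l + 1),
          (-1) ^ ((k - s) + (l - t)) * (k.choose s : ℤ) * (l.choose t : ℤ) *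
            ((b : ℤ) ^ t * n (s : ZMod p) (t : ZMod p)) := by
    intro k l hk hl hkl
    have h1 := mixed D hsq hpb a ha n hn k l hk hl hkl
    have h2 : ∑ s ∈ Finset.range (k + 1), ∑ t ∈ Finset.range (l + 1),
          (-1) ^ ((k - s) + (l - t)) * (k.choose s : ℤ) * (l.choose t : ℤ) *
            ((b : ℤ) ^ t * n (s : ZMod p) (t : ZMod p))
        = ∑ s ∈ range (k + 1), ∑ t ∈ range (l + 1),
      (-1) ^ (k + l - s - t) * (k.choose s : ℤ) * (l.choose t : ℤ) * (b : ℤ) ^ t * n s t := by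
      apply Finset.sum_congr rfl
      intro s hs
      apply Finset.sum_congr rfl
      intro t ht
      rw [Finset.mem_range] at hs ht
      have h3 : (k - s) + (l - t) = k + l - s - t := by omega
      rw [h3]
      ring
    rw [h2]
    exact h1
  have hrow := hwc p hp0 n m hE1 hE2 hR hFr hCo
  -- the rows of `a`
  have hpi0 := D.pi_ne_zero
  set A : ZMod p → F := fun j => D.row (D.pi * a) j / D.pi with hA
  have hpiA : D.isA D.pi := by
    intro s t
    rw [Dat.pi, map_sub, map_sub, map_inv₀, map_inv₀, D.ez, D.ez, map_one, map_one]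
  have hAA : ∀ j, D.isA (A j) := by
    intro j s t
    rw [hA]
    simp only [map_div₀]
    rw [row_isA D (D.pi * a) j s t, hpiA s t]
  have hAsum : a = ∑ j : ZMod p, A j * D.x ^ j.val := by
    have h1 := inversion D hb0 (D.pi * a)
    have h2 : ∑ j : ZMod p, A j * D.x ^ j.val
        = (∑ j : ZMod p, D.row (D.pi * a) j * D.x ^ j.val) / D.pi := by
      rw [Finset.sum_div]
      apply Finset.sum_congr rfl
      intro j _
      simp only [hA]
      ring
    rw [h2, ← h1]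
    field_simp
  have hAint : ∀ j, IsIntegral ℤ (D.pi ^ 44 * A j) := by
    intro j
    obtain ⟨P, hP, hPe⟩ := hrow j
    have h1 := row_integral D (D.pi * a) j (fun i => n i j) (fun i => hn i j) P hP hPe
    have h2 : D.pi ^ 44 * A j = D.pi ^ 43 * D.row (D.pi * a) j := by
      simp only [hA]
      field_simp
    rw [h2]
    exact h1
  have hen := energy_rows D A hAA
  rw [← hAsum] at hen
  have hbig : ∀ j, A j ≠ 0 → 9 / 10 * ((p : ℝ) * (p - 1)) ≤
      ∑ st : (ZMod p)ˣ × ZMod p, ‖D.e st (A j * D.x ^ j.val)‖ ^ 2 := by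
    intro j hj
    have h1 := row_big D (A j) hj 44 (hAint j)
    have h2 := hp₁ p hp1
    calc 9 / 10 * ((p : ℝ) * (p - 1))
        ≤ ((p : ℝ) * (p - 1)) * Real.exp (-(2 * (44 : ℕ) * Real.log p / (p - 1))) := by
          rw [mul_comm]
          apply mul_le_mul_of_nonneg_left h2
          apply mul_nonneg <;> linarith
      _ ≤ _ := h1
      _ ≤ _ := by
          apply Finset.sum_le_sum
          intro st _
          rw [map_mul, norm_mul]
          have h3 := norm_e_x D st j.val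
          have h4 := norm_nonneg (D.e st (A j))
          apply pow_le_pow_left₀ h4
          nlinarith
  -- exactly one row
  obtain ⟨j₀, hj₀⟩ : ∃ j, A j ≠ 0 := by
    by_contra hno
    push Not at hno
    apply ha0
    rw [hAsum]
    exact Finset.sum_eq_zero (fun j _ => by rw [hno j, zero_mul])
  have honly : ∀ j, j ≠ j₀ → A j = 0 := by
    intro j hj
    by_contra hne
    have h1 := hbig j hne
    have h2 := hbig j₀ hj₀
    have h3 : ∑ j ∈ ({j, j₀} : Finset (ZMod p)),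
        ∑ st : (ZMod p)ˣ × ZMod p, ‖D.e st (A j * D.x ^ j.val)‖ ^ 2 ≤
        ∑ j : ZMod p, ∑ st : (ZMod p)ˣ × ZMod p, ‖D.e st (A j * D.x ^ j.val)‖ ^ 2 :=
      Finset.sum_le_sum_of_subset_of_nonneg (Finset.subset_univ _)
        (fun j _ _ => Finset.sum_nonneg (fun st _ => sq_nonneg _))
    rw [Finset.sum_pair hj, ← hen] at h3
    nlinarith
  have haj : a = A j₀ * D.x ^ j₀.val := by
    conv_lhs => rw [hAsum]
    rw [Finset.sum_eq_single j₀ (fun j _ hj => by rw [honly j hj, zero_mul])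
      (fun h => absurd (Finset.mem_univ _) h)]
  have hAj : IsIntegral ℤ (A j₀) :=
    A_integral D hpb (A j₀) 44 (hAint j₀) j₀.val (by rw [← haj]; exact ha)
  have hEA : ∑ st : (ZMod p)ˣ × ZMod p, ‖D.e st (A j₀)‖ ^ 2 ≤ 21 / 20 * ((p : ℝ) * (p - 1)) := by
    calc _ ≤ ∑ st : (ZMod p)ˣ × ZMod p, ‖D.e st a‖ ^ 2 := by
          apply Finset.sum_le_sum
          intro st _
          rw [haj, map_mul, norm_mul]
          have h3 := norm_e_x D st j₀.val
          have h4 := norm_nonneg (D.e st (A j₀))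
          apply pow_le_pow_left₀ h4
          nlinarith
      _ ≤ _ := hsq2
  -- the complex conjugate of `A j₀`
  obtain ⟨Ac, hAc⟩ : ∃ Ac : F, ∀ st, D.e st Ac = (starRingEnd ℂ) (D.e st (A j₀)) := by
    refine ⟨((∑ i : ZMod p, ((D.arr (D.pi * a) i j₀ : ℚ) : F) * D.z⁻¹ ^ i.val) / (p : F)) /
      (D.z - 1), ?_⟩
    rintro ⟨s, t⟩
    simp only [hA, Dat.row, Dat.pi, map_div₀, map_sum, map_mul, map_pow, map_inv₀, map_sub, map_one,
      map_natCast, map_ratCast, D.ez]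
    have hc : (starRingEnd ℂ) (chi (s : ZMod p)) = (chi (s : ZMod p))⁻¹ :=
      (Complex.inv_eq_conj (norm_chi _)).symm
    rw [hc, inv_inv]
  obtain ⟨k, hk, hk1⟩ := kap D (A j₀) Ac hAj hj₀ hAc hEA
  exact ⟨A j₀, j₀.val, ZMod.val_lt j₀, ⟨k, hk, hk1⟩, haj⟩

end Pool.Agent.H84.WI
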